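import Mathlib

/-!
Divergence of the sum of reciprocals of primes in a residue class, and a bound for the totient
of a product of primes. Copied from a file of another seat of the team (MP_e5c236_nt).
-/

namespace Pool.Agent.Helper591.APRec

section Divergence

open ArithmeticFunction ArithmeticFunction.vonMangoldt



/-- `1/p` on primes in the residue class `a`, and `0` elsewhere. -/
noncomputable def g {q : ℕ} (a : ZMod q) (n : ℕ) : ℝ :=
  if n.Prime ∧ (n : ZMod q) = a then (1 : ℝ) / n else 0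

theorem g_nonneg {q : ℕ} (a : ZMod q) (n : ℕ) : 0 ≤ g a n := by
  unfold g
  split_ifs <;> positivity

theorem exp_ineq (t : ℝ) :
    t * Real.exp (-t) ≤ 2 * (Real.exp (-(t / 2)) - Real.exp (-t)) := by
  have h1 : Real.exp (-(t/2)) = Real.exp (t/2) * Real.exp (-t) := by
    rw [← Real.exp_add]; congr 1; ring
  have h2 : t / 2 + 1 ≤ Real.exp (t/2) := Real.add_one_le_exp _
  have h3 : 0 < Real.exp (-t) := Real.exp_pos _
  rw [h1]
  nlinarith

theorem not_summable_g {q : ℕ} [NeZero q] {a : ZMod q} (ha : IsUnit a) :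
    ¬ Summable (g a) := by
  intro hS
  obtain ⟨C, hC⟩ := LSeries_residueClass_lower_bound ha
  have hnp := summable_residueClass_non_primes_div (q := q) a
  set C2 := ∑' n : ℕ, (if n.Prime then 0 else residueClass a n) / (n : ℝ) with hC2
  -- exponentials
  set w : ℕ → ℕ → ℝ := fun j n => g a n * Real.exp (-((1/2 : ℝ) ^ j * Real.log n)) with hw
  have hw_nonneg : ∀ j n, 0 ≤ w j n := fun j n => mul_nonneg (g_nonneg a n) (Real.exp_pos _).le
  have hw_le : ∀ j n, w j n ≤ g a n := by
    intro j n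
    have : Real.exp (-((1/2 : ℝ) ^ j * Real.log n)) ≤ 1 := by
      rw [Real.exp_le_one_iff]
      have := Real.log_natCast_nonneg n
      have h2 : (0:ℝ) ≤ (1/2 : ℝ)^j := by positivity
      nlinarith [mul_nonneg h2 this]
    exact mul_le_of_le_one_right (g_nonneg a n) this
  have hw_sum : ∀ j, Summable (w j) := fun j =>
    Summable.of_nonneg_of_le (hw_nonneg j) (hw_le j) hS
  set u : ℕ → ℝ := fun j => ∑' n, w j n with hu
  have hu_nonneg : ∀ j, 0 ≤ u j := fun j => tsum_nonneg (hw_nonneg j)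
  have hu_le : ∀ j, u j ≤ ∑' n, g a n := fun j =>
    (hw_sum j).tsum_le_tsum (hw_le j) hS
  have hq : 0 < (q.totient : ℝ)⁻¹ := inv_pos.mpr (mod_cast q.totient.pos_of_neZero)
  have step : ∀ j : ℕ, (q.totient : ℝ)⁻¹ ≤ (1/2 : ℝ)^j * (C + C2) + 2 * (u (j+1) - u j) := by
    intro j
    have hj0 : (0:ℝ) < (1/2 : ℝ)^j := by positivity
    have hj1 : (1/2 : ℝ)^j ≤ 1 := pow_le_one₀ (by norm_num) (by norm_num)
    have h1 := hC (x := 1 + (1/2 : ℝ)^j) ⟨by linarith, by linarith⟩
    have hterm : ∀ n : ℕ, residueClass a n / (n : ℝ) ^ (1 + (1/2 : ℝ)^j) ≤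
        (if n.Prime then 0 else residueClass a n) / (n : ℝ)
          + (2 * ((1/2:ℝ)^j)⁻¹) * (w (j+1) n - w j n) := by
      intro n
      rcases Nat.eq_zero_or_pos n with rfl | hn
      · simp [hw, g]
      have hn1 : (1:ℝ) ≤ n := by exact_mod_cast hn
      have hn0 : (0:ℝ) < n := by linarith
      have hlog : 0 ≤ Real.log n := Real.log_natCast_nonneg n
      have hrpow : (n : ℝ) ^ (1 + (1/2 : ℝ)^j) = n * Real.exp ((1/2 : ℝ)^j * Real.log n) := by
        rw [Real.rpow_add hn0, Real.rpow_one, Real.rpow_def_of_pos hn0, mul_comm (Real.log _)]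
      by_cases hp : n.Prime
      · simp only [hp, if_true, zero_div, zero_add]
        by_cases hna : (n : ZMod q) = a
        · have hr : residueClass a n = Real.log n := by
            rw [residueClass, Set.indicator_of_mem (by exact hna)]
            exact vonMangoldt_apply_prime hp
          have hg : g a n = 1 / n := by simp [g, hp, hna]
          have hexp := exp_ineq ((1/2 : ℝ)^j * Real.log n)
          have he2 : (1/2 : ℝ)^j * Real.log n / 2 = (1/2 : ℝ)^(j+1) * Real.log n := by
            rw [pow_succ]; ring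
          rw [he2] at hexp
          simp only [hw, hg, hr, hrpow]
          have e1 : Real.log n / (n * Real.exp ((1/2 : ℝ)^j * Real.log n))
              = (1 / n) * ((1/2:ℝ)^j)⁻¹ *
                ((1/2 : ℝ)^j * Real.log n * Real.exp (-((1/2 : ℝ)^j * Real.log n))) := by
            rw [Real.exp_neg]
            field_simp
          rw [e1]
          calc (1 / (n:ℝ)) * ((1/2:ℝ)^j)⁻¹ *
                ((1/2 : ℝ)^j * Real.log n * Real.exp (-((1/2 : ℝ)^j * Real.log n)))
              ≤ (1 / (n:ℝ)) * ((1/2:ℝ)^j)⁻¹ *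
                (2 * (Real.exp (-((1/2 : ℝ)^(j+1) * Real.log n))
                  - Real.exp (-((1/2 : ℝ)^j * Real.log n)))) := by
                apply mul_le_mul_of_nonneg_left hexp
                positivity
            _ = _ := by ring
        · have hr : residueClass a n = 0 := by
            rw [residueClass, Set.indicator_of_notMem (by exact hna)]
          simp [hw, g, hna]
      · simp only [hp, if_false]
        have hg : g a n = 0 := by simp [g, hp]
        simp only [hw, hg, zero_mul, sub_self, mul_zero, add_zero]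
        apply div_le_div_of_nonneg_left (residueClass_nonneg a n) hn0
        rw [hrpow]
        have : 1 ≤ Real.exp ((1/2 : ℝ)^j * Real.log n) := Real.one_le_exp (by positivity)
        nlinarith
    have hsumR : Summable fun n : ℕ => (if n.Prime then 0 else residueClass a n) / (n : ℝ)
          + (2 * ((1/2:ℝ)^j)⁻¹) * (w (j+1) n - w j n) :=
      hnp.add (((hw_sum (j+1)).sub (hw_sum j)).mul_left _)
    have h2 : ∑' n : ℕ, residueClass a n / (n : ℝ) ^ (1 + (1/2 : ℝ)^j) ≤
        C2 + (2 * ((1/2:ℝ)^j)⁻¹) * (u (j+1) - u j) := by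
      have hsumL : Summable fun n : ℕ => residueClass a n / (n : ℝ) ^ (1 + (1/2 : ℝ)^j) :=
        Summable.of_nonneg_of_le
          (fun n => div_nonneg (residueClass_nonneg a n) (by positivity)) hterm hsumR
      refine (hsumL.tsum_le_tsum hterm hsumR).trans ?_
      rw [hnp.tsum_add (((hw_sum (j+1)).sub (hw_sum j)).mul_left _), tsum_mul_left,
        (hw_sum (j+1)).tsum_sub (hw_sum j)]
    have h3 := h1.trans h2
    have e4 : (q.totient : ℝ)⁻¹ / (1 + (1/2 : ℝ)^j - 1) = (q.totient : ℝ)⁻¹ * ((1/2:ℝ)^j)⁻¹ := by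
      rw [add_sub_cancel_left, div_eq_mul_inv]
    rw [e4] at h3
    have h5 := mul_le_mul_of_nonneg_left h3 hj0.le
    have e6 : (1/2 : ℝ)^j * ((q.totient : ℝ)⁻¹ * ((1/2:ℝ)^j)⁻¹ - C)
        = (q.totient : ℝ)⁻¹ - (1/2:ℝ)^j * C := by
      field_simp
    have e7 : (1/2 : ℝ)^j * (C2 + (2 * ((1/2:ℝ)^j)⁻¹) * (u (j+1) - u j))
        = (1/2:ℝ)^j * C2 + 2 * (u (j+1) - u j) := by
      field_simp
    rw [e6, e7] at h5
    linarith
  -- sum the steps
  have total : ∀ J : ℕ, (J : ℝ) * (q.totient : ℝ)⁻¹ ≤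
      2 * (1 - (1/2:ℝ)^J) * (C + C2) + 2 * (u J - u 0) := by
    intro J
    induction J with
    | zero => simp
    | succ J ih =>
      have := step J
      push_cast
      have e : (1/2:ℝ)^(J+1) = (1/2:ℝ)^J / 2 := by rw [pow_succ]; ring
      rw [e]
      nlinarith
  obtain ⟨J, hJ⟩ := exists_nat_gt ((2 * |C + C2| + 2 * ∑' n, g a n) / (q.totient : ℝ)⁻¹)
  rw [div_lt_iff₀ hq] at hJ
  have h1 := total J
  have h2 : 2 * (1 - (1/2:ℝ)^J) * (C + C2) ≤ 2 * |C + C2| := by
    have hJ0 : (0:ℝ) < (1/2 : ℝ)^J := by positivity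
    have hJ1 : (1/2 : ℝ)^J ≤ 1 := pow_le_one₀ (by norm_num) (by norm_num)
    have h3 : (C + C2) ≤ |C + C2| := le_abs_self _
    have h4 : 0 ≤ |C + C2| := abs_nonneg _
    nlinarith [mul_nonneg hJ0.le h4, mul_le_mul_of_nonneg_left h3 (sub_nonneg.mpr hJ1)]
  have h3 := hu_le J
  have h4 := hu_nonneg 0
  linarith


end Divergence

theorem totient_prod_le (F : Finset ℕ) (hF : ∀ p ∈ F, p.Prime) :
    ((Nat.totient (∏ p ∈ F, p) : ℕ) : ℝ) ≤
      ((∏ p ∈ F, p : ℕ) : ℝ) * Real.exp (-∑ p ∈ F, (1 : ℝ) / p) := by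
  classical
  induction F using Finset.induction_on with
  | empty => simp
  | insert p F hpF ih =>
    have hp : p.Prime := hF p (Finset.mem_insert_self _ _)
    have hF' : ∀ q ∈ F, q.Prime := fun q hq => hF q (Finset.mem_insert_of_mem hq)
    have hcop : Nat.Coprime p (∏ q ∈ F, q) := by
      apply Nat.Coprime.prod_right
      intro q hq
      exact (Nat.coprime_primes hp (hF' q hq)).mpr (by rintro rfl; exact hpF hq)
    rw [Finset.prod_insert hpF, Finset.sum_insert hpF, Nat.totient_mul hcop, Nat.totient_prime hp]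
    have hp1 : (1 : ℝ) ≤ p := by exact_mod_cast hp.one_lt.le
    have hp0 : (0 : ℝ) < p := by linarith
    have h1 : (((p - 1 : ℕ) : ℕ) : ℝ) ≤ p * Real.exp (-(1 / p : ℝ)) := by
      rw [Nat.cast_sub hp.one_lt.le]
      have := Real.add_one_le_exp (-(1 / p : ℝ))
      have h2 := mul_le_mul_of_nonneg_left this hp0.le
      have h3 : (p : ℝ) * (-(1 / p) + 1) = p - 1 := by field_simp; ring
      rw [h3] at h2
      simpa using h2
    have h2 := ih hF'
    rw [neg_add, Real.exp_add]
    push_cast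
    calc (((p - 1 : ℕ) : ℕ) : ℝ) * ((Nat.totient (∏ q ∈ F, q) : ℕ) : ℝ)
        ≤ (p * Real.exp (-(1 / p : ℝ))) *
          (((∏ q ∈ F, q : ℕ) : ℝ) * Real.exp (-∑ q ∈ F, (1 : ℝ) / q)) :=
          mul_le_mul h1 h2 (by positivity) (by positivity)
      _ = _ := by push_cast; ring

end Pool.Agent.Helper591.APRec
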