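import Mathlib
import Pool.Agent.Helper591.Kneser

/-!
Sets `A ⊆ ℤ/n` whose `h`-fold sumset avoids a given element `c`: the sharp upper bound.
-/

set_option linter.unusedSectionVars false

open Finset
open scoped Pointwise

namespace Pool.Agent.Helper591.CyclicZero

open Pool.Agent.Helper591.Kneser

/-- Value attached to a divisor `d`. -/
def val (h d : ℕ) (c : ℤ) : ℤ :=
  ((d : ℤ) - 1 - ((Nat.gcd d h : ℤ) - c % (Nat.gcd d h : ℤ))) / (h : ℤ) + 1

theorem val_lower {h d : ℕ} (hh : 0 < h) (c : ℤ) :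
    (d : ℤ) - 1 - ((Nat.gcd d h : ℤ) - c % (Nat.gcd d h : ℤ)) < h * val h d c := by
  unfold val
  have := Int.lt_ediv_add_one_mul_self
    ((d : ℤ) - 1 - ((Nat.gcd d h : ℤ) - c % (Nat.gcd d h : ℤ))) (show (0 : ℤ) < h by exact_mod_cast hh)
  linarith

theorem val_upper {h d : ℕ} (hh : 0 < h) (c : ℤ) :
    h * val h d c ≤ (d : ℤ) - 1 - ((Nat.gcd d h : ℤ) - c % (Nat.gcd d h : ℤ)) + h := by
  unfold val
  have := Int.ediv_mul_le
    ((d : ℤ) - 1 - ((Nat.gcd d h : ℤ) - c % (Nat.gcd d h : ℤ))) (show (h : ℤ) ≠ 0 by positivity)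
  linarith

theorem gcd_pos_int {h d : ℕ} (hh : 0 < h) : (0 : ℤ) < (Nat.gcd d h : ℤ) := by
  exact_mod_cast Nat.gcd_pos_of_pos_right d hh

/-- a multiple of `g` in `[1, g]` is `g` -/
theorem eq_of_dvd_of_le {g y : ℤ} (hy : 0 < y) (hyg : y ≤ g) (hd : g ∣ y) : y = g :=
  le_antisymm hyg (Int.le_of_dvd hy hd)

/-- if `h * a ≤ x + (h - 1)` with `h ∣ x` then `h * a ≤ x`. -/
theorem mul_le_of_dvd {h a x : ℤ} (hh : 0 < h) (hx : h ∣ x) (hle : h * a ≤ x + h - 1) :
    h * a ≤ x := by
  obtain ⟨t, rfl⟩ := hx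
  have : a ≤ t := by
    by_contra hcon
    push Not at hcon
    have : t + 1 ≤ a := hcon
    have := mul_le_mul_of_nonneg_left this hh.le
    linarith
  exact mul_le_mul_of_nonneg_left this hh.le

theorem sm_image {G H : Type*} [AddCommGroup G] [AddCommGroup H] [DecidableEq G] [DecidableEq H]
    (f : G →+ H) (A : Finset G) (k : ℕ) : sm k (A.image f) = (sm k A).image f := by
  induction k with
  | zero => ext x; simp [sm]
  | succ k ih =>
    show sm k (A.image f) + A.image f = (sm k A + A).image f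
    rw [ih]
    ext x
    simp only [Finset.mem_add, Finset.mem_image]
    constructor
    · rintro ⟨_, ⟨a, ha, rfl⟩, _, ⟨b, hb, rfl⟩, rfl⟩
      exact ⟨a + b, ⟨a, ha, b, hb, rfl⟩, map_add f a b⟩
    · rintro ⟨_, ⟨a, ha, b, hb, rfl⟩, rfl⟩
      exact ⟨_, ⟨a, ha, rfl⟩, _, ⟨b, hb, rfl⟩, (map_add f a b).symm⟩

/-- reduction when the iterated sumset is periodic -/
theorem periodic_reduction {n h : ℕ} [NeZero n] (c : ℤ) (A : Finset (ZMod n))
    (hc : (c : ZMod n) ∉ sm h A) (hst : stab (sm h A) ≠ ⊥) :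
    ∃ d : ℕ, 0 < d ∧ d < n ∧ d ∣ n ∧ ∃ A' : Finset (ZMod d), (A.Nonempty → A'.Nonempty) ∧
      (c : ZMod d) ∉ sm h A' ∧ A.card ≤ (n / d) * A'.card := by
  classical
  have hn : 0 < n := Nat.pos_of_ne_zero (NeZero.ne n)
  obtain ⟨t, ht, ht0⟩ : ∃ t : ZMod n, t ∈ stab (sm h A) ∧ t ≠ 0 := by
    obtain ⟨t, h⟩ := AddSubgroup.ne_bot_iff_exists_ne_zero.mp hst
    exact ⟨t.1, t.2, fun h0 => h (Subtype.ext h0)⟩
  set d := Nat.gcd t.val n with hd
  have hdpos : 0 < d := Nat.gcd_pos_of_pos_right _ hn
  have hdn : d ∣ n := Nat.gcd_dvd_right _ _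
  have htv : 0 < t.val := by
    rcases Nat.eq_zero_or_pos t.val with h0 | h0
    · exact absurd ((ZMod.val_eq_zero t).mp h0) ht0
    · exact h0
  have hdlt : d < n := lt_of_le_of_lt (Nat.gcd_le_left n htv) (ZMod.val_lt t)
  have : NeZero d := ⟨hdpos.ne'⟩
  have hdstab : ((d : ℕ) : ZMod n) ∈ stab (sm h A) := by
    have hbez := Nat.gcd_eq_gcd_ab t.val n
    have h1 : ((d : ℕ) : ZMod n) = (Nat.gcdA t.val n) • t := by
      have h2 : (((Nat.gcd t.val n : ℕ) : ℤ) : ZMod n)
          = ((t.val * Nat.gcdA t.val n + n * Nat.gcdB t.val n : ℤ) : ZMod n) := by rw [hbez]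
      rw [zsmul_eq_mul]
      push_cast at h2
      rw [ZMod.natCast_zmod_val, ZMod.natCast_self, zero_mul, add_zero] at h2
      rw [hd, h2, mul_comm]
    rw [h1]
    exact AddSubgroup.zsmul_mem _ ht _
  set f := ZMod.castHom hdn (ZMod d) with hf
  refine ⟨d, hdpos, hdlt, hdn, A.image f, fun h => h.image f, ?_, ?_⟩
  · intro hmem
    have hmem' : (c : ZMod d) ∈ (sm h A).image f := by
      have := sm_image f.toAddMonoidHom A h
      have e : (A.image f.toAddMonoidHom) = A.image f := rfl
      rw [e] at this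
      rw [this] at hmem
      exact hmem
    rw [Finset.mem_image] at hmem'
    obtain ⟨s, hs, hsc⟩ := hmem'
    apply hc
    have h1 : (((c - (s.val : ℤ)) : ℤ) : ZMod d) = 0 := by
      push_cast
      have : ((s.val : ℕ) : ZMod d) = f s := by
        rw [hf, ZMod.castHom_apply, ← ZMod.natCast_val]
      rw [this, hsc, sub_self]
    rw [ZMod.intCast_zmod_eq_zero_iff_dvd] at h1
    obtain ⟨k, hk⟩ := h1
    have h2 : (c : ZMod n) = k • ((d : ℕ) : ZMod n) + s := by
      have : c = d * k + s.val := by linarith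
      rw [this]
      push_cast
      rw [ZMod.natCast_zmod_val, zsmul_eq_mul, mul_comm]
    rw [h2]
    exact ((AddSubgroup.zsmul_mem _ hdstab k) s).mpr hs
  · apply Finset.card_le_mul_card_image
    intro b _
    have : (n / d) = (Finset.range (n / d)).card := by rw [Finset.card_range]
    rw [this]
    apply Finset.card_le_card_of_injOn (fun a => a.val / d)
    · intro a ha
      rw [Finset.mem_coe, Finset.mem_range]
      exact Nat.div_lt_div_of_lt_of_dvd hdn (ZMod.val_lt a)
    · intro a ha a' ha' haa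
      rw [Finset.mem_coe, Finset.mem_filter] at ha ha'
      have h1 : ((a.val : ℕ) : ZMod d) = ((a'.val : ℕ) : ZMod d) := by
        have e1 : ((a.val : ℕ) : ZMod d) = f a := by
          rw [hf, ZMod.castHom_apply, ← ZMod.natCast_val]
        have e2 : ((a'.val : ℕ) : ZMod d) = f a' := by
          rw [hf, ZMod.castHom_apply, ← ZMod.natCast_val]
        rw [e1, e2, ha.2, ha'.2]
      rw [ZMod.natCast_eq_natCast_iff'] at h1
      have h2 : a.val / d = a'.val / d := haa
      have h3 : a.val = a'.val := by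
        rw [← Nat.div_add_mod a.val d, ← Nat.div_add_mod a'.val d, h1, h2]
      exact ZMod.val_injective n h3

/-- The residue-class pieces of a set modulo `p`. -/
noncomputable def piece (p k : ℕ) [NeZero k] (A : Finset (ZMod (p * k))) (i : ℕ) : Finset (ZMod k) := by
  classical
  exact univ.filter (fun x : ZMod k => ((i + p * x.val : ℕ) : ZMod (p * k)) ∈ A)

theorem mem_piece {p k : ℕ} [NeZero k] {A : Finset (ZMod (p * k))} {i : ℕ} {x : ZMod k} :
    x ∈ piece p k A i ↔ ((i + p * x.val : ℕ) : ZMod (p * k)) ∈ A := by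
  classical
  simp [piece]

theorem card_le_sum_piece {p k : ℕ} [NeZero p] [NeZero k] (A : Finset (ZMod (p * k))) :
    A.card ≤ ∑ i ∈ range p, (piece p k A i).card := by
  classical
  have hp : 0 < p := Nat.pos_of_ne_zero (NeZero.ne p)
  have : NeZero (p * k) := ⟨Nat.mul_ne_zero (NeZero.ne p) (NeZero.ne k)⟩
  have hsub : A ⊆ (range p).biUnion (fun i => (piece p k A i).image
      (fun x : ZMod k => ((i + p * x.val : ℕ) : ZMod (p * k)))) := by
    intro a ha
    rw [Finset.mem_biUnion]
    refine ⟨a.val % p, Finset.mem_range.mpr (Nat.mod_lt _ hp), ?_⟩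
    rw [Finset.mem_image]
    have hlt : a.val / p < k := Nat.div_lt_of_lt_mul (ZMod.val_lt a)
    have hval : ((a.val / p : ℕ) : ZMod k).val = a.val / p := ZMod.val_natCast_of_lt hlt
    have hrec : ((a.val % p + p * ((a.val / p : ℕ) : ZMod k).val : ℕ) : ZMod (p * k)) = a := by
      rw [hval, Nat.mod_add_div, ZMod.natCast_zmod_val]
    refine ⟨((a.val / p : ℕ) : ZMod k), ?_, hrec⟩
    rw [mem_piece, hrec]
    exact ha
  calc A.card ≤ _ := Finset.card_le_card hsub
    _ ≤ ∑ i ∈ range p, ((piece p k A i).image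
      (fun x : ZMod k => ((i + p * x.val : ℕ) : ZMod (p * k)))).card := Finset.card_biUnion_le
    _ ≤ _ := Finset.sum_le_sum (fun i _ => Finset.card_image_le)

theorem sm_piece {p k : ℕ} [NeZero p] [NeZero k] (A : Finset (ZMod (p * k))) (i : ℕ) (j : ℕ) :
    ∀ y ∈ sm j (piece p k A i), ∀ z : ℤ, (z : ZMod k) = y →
      (((j : ℤ) * i + p * z : ℤ) : ZMod (p * k)) ∈ sm j A := by
  induction j with
  | zero =>
    intro y hy z hz
    have hy0 : y = 0 := by simpa [sm] using hy
    rw [hy0, ZMod.intCast_zmod_eq_zero_iff_dvd] at hz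
    obtain ⟨w, rfl⟩ := hz
    have : (((0 : ℕ) : ℤ) * i + p * ((k : ℤ) * w) : ℤ) = ((p * k : ℕ) : ℤ) * w := by push_cast; ring
    rw [this]
    show _ ∈ ({0} : Finset (ZMod (p * k)))
    rw [Finset.mem_singleton, Int.cast_mul]
    have h0 : (((p * k : ℕ) : ℤ) : ZMod (p * k)) = 0 := by
      rw [Int.cast_natCast, ZMod.natCast_self]
    rw [h0, zero_mul]
  | succ j ih =>
    intro y hy z hz
    rw [sm_succ, Finset.mem_add] at hy
    obtain ⟨u, hu, v, hv, rfl⟩ := hy
    have h1 := ih u hu (z - v.val) (by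
      push_cast
      rw [ZMod.natCast_zmod_val, hz]; abel)
    rw [mem_piece] at hv
    rw [sm_succ]
    have h2 := Finset.add_mem_add h1 hv
    have e : ((((j + 1 : ℕ) : ℤ) * i + p * z : ℤ) : ZMod (p * k))
        = (((j : ℤ) * i + p * (z - v.val) : ℤ) : ZMod (p * k)) + ((i + p * v.val : ℕ) : ZMod (p * k)) := by
      push_cast
      ring
    rw [e]
    exact h2

/-- arithmetic of the case `gcd = h`. -/
theorem gcd_case {h p d : ℕ} (hh : 1 < h) (hp : p = h.minFac) (h1 : (h : ℤ) ∣ (d : ℤ) - Nat.gcd d h)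
    (h2 : (h : ℤ) ∣ ((p * d : ℕ) : ℤ) - Nat.gcd (p * d) h) : h ∣ d ∨ p * Nat.gcd d h ∣ h := by
  have hpp : p.Prime := by rw [hp]; exact Nat.minFac_prime (by omega)
  have ha : Nat.gcd d h ∣ Nat.gcd (p * d) h := Nat.gcd_dvd_gcd_mul_left_left d h p
  have hb : Nat.gcd (p * d) h ∣ p * Nat.gcd d h := by
    calc Nat.gcd (p * d) h ∣ Nat.gcd (p * d) (p * h) := Nat.gcd_dvd_gcd_mul_left_right _ _ _
      _ = p * Nat.gcd d h := Nat.gcd_mul_left _ _ _
  obtain ⟨q, hq⟩ := ha
  have hgpos : 0 < Nat.gcd d h := Nat.gcd_pos_of_pos_right d (by omega)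
  have hqp : q ∣ p := by
    rw [hq, mul_comm p] at hb
    exact Nat.dvd_of_mul_dvd_mul_left hgpos hb
  rcases (Nat.dvd_prime hpp).mp hqp with hq1 | hq1
  · left
    rw [hq1, mul_one] at hq
    rw [hq] at h2
    have h3 : (h : ℤ) ∣ (((p * d : ℕ) : ℤ) - Nat.gcd d h) - ((d : ℤ) - Nat.gcd d h) := dvd_sub h2 h1
    have h4 : (((p * d : ℕ) : ℤ) - Nat.gcd d h) - ((d : ℤ) - Nat.gcd d h) = ((p - 1 : ℕ) : ℤ) * d := by
      rw [Nat.cast_sub hpp.one_lt.le]
      push_cast
      ring
    rw [h4] at h3
    have h5 : h ∣ (p - 1) * d := by exact_mod_cast h3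
    have h6 : Nat.Coprime h (p - 1) := by
      rw [Nat.coprime_iff_gcd_eq_one]
      by_contra hne
      have hr := Nat.minFac_prime hne
      have hr1 := (Nat.minFac_dvd (Nat.gcd h (p - 1))).trans (Nat.gcd_dvd_left _ _)
      have hr2 := (Nat.minFac_dvd (Nat.gcd h (p - 1))).trans (Nat.gcd_dvd_right _ _)
      have hr3 : h.minFac ≤ (Nat.gcd h (p - 1)).minFac := Nat.minFac_le_of_dvd hr.two_le hr1
      have hr4 := Nat.le_of_dvd (by have := hpp.two_le; omega) hr2
      rw [← hp] at hr3
      have := hpp.two_le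
      omega
    exact h6.dvd_of_dvd_mul_left h5
  · right
    rw [hq1] at hq
    have : Nat.gcd (p * d) h ∣ h := Nat.gcd_dvd_right _ _
    rw [hq, mul_comm] at this
    exact this

/-- The sharp upper bound for sets whose `h`-fold sumset avoids `c`. -/
theorem main_bound (N : ℕ) : ∀ (h n : ℕ) [NeZero n], h + n ≤ N → 0 < h → ∀ (c : ℤ)
    (A : Finset (ZMod n)), A.Nonempty → (c : ZMod n) ∉ sm h A →
    ∃ d : ℕ, 0 < d ∧ d ∣ n ∧ (A.card : ℤ) ≤ val h d c * ((n / d : ℕ) : ℤ) := by
  classical
  induction N with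
  | zero =>
    intro h n _ hN hh
    omega
  | succ N ih =>
    intro h n _ hN hh c A hA hc
    have hn : 0 < n := Nat.pos_of_ne_zero (NeZero.ne n)
    by_cases hst : stab (sm h A) = ⊥
    swap
    · obtain ⟨d, hd0, hdn, hdvd, A', hA', hc', hcard⟩ := periodic_reduction c A hc hst
      have : NeZero d := ⟨hd0.ne'⟩
      obtain ⟨d', hd'0, hd'd, hle⟩ := ih h d (by omega) hh c A' (hA' hA) hc'
      refine ⟨d', hd'0, hd'd.trans hdvd, ?_⟩
      have e : (n / d' : ℕ) = (n / d) * (d / d') := by
        obtain ⟨a, rfl⟩ := hd'd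
        obtain ⟨b, rfl⟩ := hdvd
        rw [Nat.mul_div_cancel_left _ hd0, Nat.mul_div_cancel_left _ hd'0, mul_assoc,
          Nat.mul_div_cancel_left _ hd'0, mul_comm]
      rw [e]
      have h1 : (A.card : ℤ) ≤ ((n / d : ℕ) : ℤ) * A'.card := by exact_mod_cast hcard
      have h2 : ((n / d : ℕ) : ℤ) * A'.card ≤ ((n / d : ℕ) : ℤ) * (val h d' c * ((d / d' : ℕ) : ℤ)) :=
        mul_le_mul_of_nonneg_left hle (Int.natCast_nonneg _)
      push_cast at *
      linarith
    -- aperiodic case
    by_contra hcon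
    push Not at hcon
    have hm : 0 < A.card := Finset.card_pos.mpr hA
    have hk := kneser_sm hA h hh hst
    have hcardlt : (sm h A).card + 1 ≤ n := by
      have h1 : (sm h A).card < (univ : Finset (ZMod n)).card := by
        apply Finset.card_lt_card
        rw [Finset.ssubset_univ_iff]
        intro he
        exact hc (by rw [he]; exact Finset.mem_univ _)
      rw [Finset.card_univ, ZMod.card] at h1
      omega
    set m := A.card with hmdef
    have hhZ : (0 : ℤ) < h := by exact_mod_cast hh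
    have hhm : (h : ℤ) * (m - 1) ≤ n - 2 := by
      have h1 : (h : ℤ) * m + 2 ≤ n + h := by
        have : h * m + 2 ≤ n + h := by omega
        exact_mod_cast this
      linarith
    have hgpos := gcd_pos_int (d := n) hh
    -- consequences at d = n
    have htop := hcon n hn dvd_rfl
    rw [Nat.div_self hn, Nat.cast_one, mul_one] at htop
    have hl := val_lower (h := h) (d := n) hh c
    have hmod0 := Int.emod_nonneg c hgpos.ne'
    have hmodlt := Int.emod_lt_of_pos c hgpos
    have hvm : h * val h n c ≤ (h : ℤ) * (m - 1) :=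
      mul_le_mul_of_nonneg_left (by linarith) hhZ.le
    have hgh : ((Nat.gcd n h : ℕ) : ℤ) ∣ (h : ℤ) := by exact_mod_cast Nat.gcd_dvd_right n h
    have hgn : ((Nat.gcd n h : ℕ) : ℤ) ∣ (n : ℤ) := by exact_mod_cast Nat.gcd_dvd_left n h
    have hy : (n : ℤ) - h * (m - 1) = Nat.gcd n h := by
      apply eq_of_dvd_of_le
      · linarith
      · linarith
      · exact dvd_sub hgn (hgh.mul_right _)
    have hg2 : (2 : ℤ) ≤ Nat.gcd n h := by linarith
    have hcg : c % (Nat.gcd n h : ℤ) = 0 := by linarith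
    have hgc : ((Nat.gcd n h : ℕ) : ℤ) ∣ c := Int.dvd_of_emod_eq_zero hcg
    -- star property
    have star : ∀ d : ℕ, 0 < d → d ∣ n → (h : ℤ) ∣ (d : ℤ) - Nat.gcd d h := by
      intro d hd0 hdn
      have h1 := hcon d hd0 hdn
      have hnd : ((n / d : ℕ) : ℤ) * d = n := by exact_mod_cast Nat.div_mul_cancel hdn
      have hnd0 : (0 : ℤ) < ((n / d : ℕ) : ℤ) := by
        exact_mod_cast Nat.div_pos (Nat.le_of_dvd hn hdn) hd0
      have h2 : (h : ℤ) * (val h d c * ((n / d : ℕ) : ℤ)) ≤ h * (m - 1) :=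
        mul_le_mul_of_nonneg_left (by linarith) hhZ.le
      have h3 : (h : ℤ) * val h d c < d := by
        by_contra hge
        push Not at hge
        have := mul_le_mul_of_nonneg_right hge hnd0.le
        nlinarith
      have h4 := val_lower (h := h) (d := d) hh c
      have hgd := gcd_pos_int (d := d) hh
      have h5 := Int.emod_nonneg c hgd.ne'
      have h6 : ((Nat.gcd d h : ℕ) : ℤ) ∣ (h : ℤ) := by exact_mod_cast Nat.gcd_dvd_right d h
      have h7 : ((Nat.gcd d h : ℕ) : ℤ) ∣ (d : ℤ) := by exact_mod_cast Nat.gcd_dvd_left d h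
      have h8 : (d : ℤ) - h * val h d c = Nat.gcd d h := by
        apply eq_of_dvd_of_le
        · linarith
        · linarith
        · exact dvd_sub h7 (h6.mul_right _)
      exact ⟨val h d c, by linarith⟩
    have hglt : Nat.gcd n h ≤ h := Nat.gcd_le_right n hh
    rcases hglt.lt_or_eq with hlt | heq
    · -- case g < h
      set g := Nat.gcd n h with hgdef
      obtain ⟨h'', hh''⟩ : g ∣ h := Nat.gcd_dvd_right n h
      have hg0 : 0 < g := by exact_mod_cast hgpos
      have hh''0 : 0 < h'' := by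
        rcases Nat.eq_zero_or_pos h'' with h0 | h0
        · rw [h0, mul_zero] at hh''; omega
        · exact h0
      have hle'' : h'' ≤ h := by rw [hh'']; exact Nat.le_mul_of_pos_left _ hg0
      have hstB : stab (sm h'' A) = ⊥ := by
        apply le_antisymm _ bot_le
        rw [← hst]
        exact stab_sm_mono hle'' A
      have hkB := kneser_sm hA h'' hh''0 hstB
      rw [← hmdef] at hkB
      have hcB : (c : ZMod n) ∉ sm g (sm h'' A) := by
        rw [← sm_mul, ← hh'']; exact hc
      obtain ⟨d, hd0, hdn, hdle⟩ := ih g n (by omega) hg0 c (sm h'' A) (sm_nonempty hA _) hcB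
      have hs := star d hd0 hdn
      have hgg : Nat.gcd d g = Nat.gcd d h := by
        apply Nat.dvd_antisymm
        · exact Nat.dvd_gcd (Nat.gcd_dvd_left _ _) ((Nat.gcd_dvd_right _ _).trans (Nat.gcd_dvd_right n h))
        · exact Nat.dvd_gcd (Nat.gcd_dvd_left _ _)
            (Nat.dvd_gcd ((Nat.gcd_dvd_left _ _).trans hdn) (Nat.gcd_dvd_right _ _))
      have hup := val_upper (h := g) (d := d) hg0 c
      have hgd := gcd_pos_int (d := d) hg0
      have hdg : ((Nat.gcd d g : ℕ) : ℤ) ∣ c := by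
        have : ((Nat.gcd d g : ℕ) : ℤ) ∣ (g : ℤ) := by exact_mod_cast Nat.gcd_dvd_right d g
        exact this.trans hgc
      have hc0 : c % ((Nat.gcd d g : ℕ) : ℤ) = 0 := Int.emod_eq_zero_of_dvd hdg
      have hgZ : (0 : ℤ) < g := by exact_mod_cast hg0
      have hgdvd : (g : ℤ) ∣ (d : ℤ) - Nat.gcd d g := by
        rw [hgg]; exact hgh.trans hs
      have hfin : (g : ℤ) * val g d c ≤ (d : ℤ) - Nat.gcd d g := by
        apply mul_le_of_dvd hgZ hgdvd
        rw [hc0] at hup
        linarith
      have hnd : ((n / d : ℕ) : ℤ) * d = n := by exact_mod_cast Nat.div_mul_cancel hdn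
      have hnd0 : (0 : ℤ) < ((n / d : ℕ) : ℤ) := by
        exact_mod_cast Nat.div_pos (Nat.le_of_dvd hn hdn) hd0
      have e1 : (g : ℤ) * (sm h'' A).card ≤ g * (val g d c * ((n / d : ℕ) : ℤ)) :=
        mul_le_mul_of_nonneg_left hdle hgZ.le
      have e2 : (g : ℤ) * (val g d c * ((n / d : ℕ) : ℤ)) < n := by
        have : (g : ℤ) * (val g d c * ((n / d : ℕ) : ℤ)) = (g * val g d c) * ((n / d : ℕ) : ℤ) := by ring
        rw [this]
        have h3 : (g * val g d c) * ((n / d : ℕ) : ℤ) ≤ ((d : ℤ) - Nat.gcd d g) * ((n / d : ℕ) : ℤ) :=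
          mul_le_mul_of_nonneg_right hfin hnd0.le
        have h4 : (0 : ℤ) < (Nat.gcd d g : ℤ) * ((n / d : ℕ) : ℤ) := mul_pos hgd hnd0
        nlinarith
      have e3 : (h'' : ℤ) * m + 1 ≤ (sm h'' A).card + h'' := by exact_mod_cast hkB
      have e4 : (g : ℤ) * ((h'' : ℤ) * m + 1 - h'') ≤ g * (sm h'' A).card :=
        mul_le_mul_of_nonneg_left (by linarith) hgZ.le
      have e5 : (h : ℤ) = g * h'' := by exact_mod_cast hh''
      have e6 : (g : ℤ) * ((h'' : ℤ) * m + 1 - h'') = (h : ℤ) * (m - 1) + g := by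
        rw [e5]; ring
      linarith
    · -- case g = h
      rw [heq] at hy hg2 hgc
      have hh2 : 1 < h := by
        have : (2 : ℤ) ≤ h := hg2
        omega
      set p := h.minFac with hpdef
      have hpp : p.Prime := Nat.minFac_prime (by omega)
      have hph : p ∣ h := Nat.minFac_dvd h
      have hhn : h ∣ n := by rw [← heq]; exact Nat.gcd_dvd_left n h
      obtain ⟨h1, hh1⟩ := hph
      obtain ⟨c0, hc0⟩ := hgc
      obtain ⟨k, hk'⟩ : p ∣ n := (Nat.minFac_dvd h).trans hhn
      subst hk'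
      have hk0 : 0 < k := by
        rcases Nat.eq_zero_or_pos k with h0 | h0
        · rw [h0, mul_zero] at hn; omega
        · exact h0
      have : NeZero k := ⟨hk0.ne'⟩
      have : NeZero p := ⟨hpp.pos.ne'⟩
      have hklt : k < p * k := by
        have := hpp.two_le
        nlinarith
      have hh1Z : (h : ℤ) = p * h1 := by exact_mod_cast hh1
      have hpZ : (0 : ℤ) < p := by exact_mod_cast hpp.pos
      have hkZ : (0 : ℤ) < k := by exact_mod_cast hk0
      -- bound for each class
      have key : ∀ i : ℕ, (h : ℤ) * (piece p k A i).card ≤ k ∧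
          ((h : ℤ) ∣ (h1 : ℤ) * (c0 - i) → (h : ℤ) * (piece p k A i).card < k) := by
        intro i
        rcases Finset.eq_empty_or_nonempty (piece p k A i) with he | hne
        · rw [he]
          simp only [Finset.card_empty, Nat.cast_zero, mul_zero]
          exact ⟨hkZ.le, fun _ => hkZ⟩
        · have hci : (((h1 : ℤ) * (c0 - i) : ℤ) : ZMod k) ∉ sm h (piece p k A i) := by
            intro hmem
            have := sm_piece A i h _ hmem ((h1 : ℤ) * (c0 - i)) rfl
            apply hc
            have e : ((h : ℤ) * i + p * ((h1 : ℤ) * (c0 - i)) : ℤ) = c := by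
              rw [hc0, hh1Z]; ring
            rw [e] at this
            exact this
          obtain ⟨d, hd0, hdk, hdle⟩ := ih h k (by omega) hh _ (piece p k A i) hne hci
          have hs1 := star d hd0 (hdk.trans (Dvd.intro_left p rfl))
          have hs2 := star (p * d) (Nat.mul_pos hpp.pos hd0) (Nat.mul_dvd_mul_left p hdk)
          have hcase := gcd_case hh2 hpdef hs1 hs2
          have hnd : ((k / d : ℕ) : ℤ) * d = k := by exact_mod_cast Nat.div_mul_cancel hdk
          have hnd0 : (0 : ℤ) < ((k / d : ℕ) : ℤ) := by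
            exact_mod_cast Nat.div_pos (Nat.le_of_dvd hk0 hdk) hd0
          have hup := val_upper (h := h) (d := d) hh ((h1 : ℤ) * (c0 - i))
          have hgd := gcd_pos_int (d := d) hh
          have hmlt := Int.emod_lt_of_pos ((h1 : ℤ) * (c0 - i)) hgd
          have hvb : (h : ℤ) * val h d ((h1 : ℤ) * (c0 - i)) ≤ d ∧
              ((h : ℤ) ∣ (h1 : ℤ) * (c0 - i) → (h : ℤ) * val h d ((h1 : ℤ) * (c0 - i)) < d) := by
            rcases hcase with hhd | hhd
            · have hhdZ : (h : ℤ) ∣ (d : ℤ) := by exact_mod_cast hhd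
              constructor
              · apply mul_le_of_dvd hhZ hhdZ
                linarith
              · intro hdvd
                have hgh : Nat.gcd d h = h := Nat.gcd_eq_right hhd
                rw [hgh, Int.emod_eq_zero_of_dvd hdvd] at hup
                linarith
            · have hgh1 : Nat.gcd d h ∣ h1 := by
                rw [hh1] at hhd
                have := Nat.dvd_of_mul_dvd_mul_left hpp.pos hhd
                rw [← hh1] at this
                exact this
              have hgc1 : ((Nat.gcd d h : ℕ) : ℤ) ∣ (h1 : ℤ) * (c0 - i) := by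
                have : ((Nat.gcd d h : ℕ) : ℤ) ∣ (h1 : ℤ) := by exact_mod_cast hgh1
                exact this.mul_right _
              rw [Int.emod_eq_zero_of_dvd hgc1] at hup
              have : (h : ℤ) * val h d ((h1 : ℤ) * (c0 - i)) ≤ (d : ℤ) - Nat.gcd d h := by
                apply mul_le_of_dvd hhZ hs1
                linarith
              constructor
              · linarith
              · intro _; linarith
          have e1 : (h : ℤ) * (piece p k A i).card
              ≤ (h * val h d ((h1 : ℤ) * (c0 - i))) * ((k / d : ℕ) : ℤ) := by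
            have := mul_le_mul_of_nonneg_left hdle hhZ.le
            linarith
          constructor
          · have := mul_le_mul_of_nonneg_right hvb.1 hnd0.le
            linarith
          · intro hdvd
            have := mul_lt_mul_of_pos_right (hvb.2 hdvd) hnd0
            linarith
      -- the special class
      have hspec : ∃ i ∈ range p, (h : ℤ) ∣ (h1 : ℤ) * (c0 - i) := by
        refine ⟨(c0 % p).toNat, ?_, ?_⟩
        · rw [Finset.mem_range]
          have h3 := Int.emod_nonneg c0 hpZ.ne'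
          have h4 := Int.emod_lt_of_pos c0 hpZ
          omega
        · rw [Int.toNat_of_nonneg (Int.emod_nonneg c0 hpZ.ne'), hh1Z, mul_comm (p : ℤ)]
          apply mul_dvd_mul_left
          exact Int.dvd_self_sub_emod
      have hsum := card_le_sum_piece A
      rw [← hmdef] at hsum
      have hsumZ : (h : ℤ) * m ≤ ∑ i ∈ range p, (h : ℤ) * (piece p k A i).card := by
        rw [← Finset.mul_sum]
        apply mul_le_mul_of_nonneg_left _ hhZ.le
        exact_mod_cast hsum
      have hlt2 : ∑ i ∈ range p, (h : ℤ) * (piece p k A i).card < ∑ i ∈ range p, (k : ℤ) := by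
        obtain ⟨i0, hi0, hi0'⟩ := hspec
        apply Finset.sum_lt_sum
        · intro i _; exact (key i).1
        · exact ⟨i0, hi0, (key i0).2 hi0'⟩
      rw [Finset.sum_const, Finset.card_range, nsmul_eq_mul] at hlt2
      push_cast at hy
      linarith

end Pool.Agent.Helper591.CyclicZero
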