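import Mathlib
import Pool.Agent.Helper591.Kneser

/-!
Subset sums of a dense set which is not contained, up to few elements, in a proper subgroup.
-/

set_option linter.unusedSectionVars false
set_option linter.unusedVariables false

open Finset
open scoped Pointwise

namespace Pool.Agent.Helper591.Growth

open Pool.Agent.Helper591.Kneser

variable {G : Type*} [AddCommGroup G] [Fintype G] [DecidableEq G]

/-- Diameter bound: a generating set containing zero which is dense has bounded diameter. -/
theorem sm_eq_univ {Z : Finset G} (h0 : (0 : G) ∈ Z)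
    (hgen : ∀ P : AddSubgroup G, P ≠ ⊤ → ∃ z ∈ Z, z ∉ P) {L : ℕ} (hL : 1 ≤ L)
    (hbig : 2 * Fintype.card G < L * Z.card) : ∀ x : G, x ∈ sm L Z := by
  classical
  set C := sm L Z with hC
  have hZne : Z.Nonempty := ⟨0, h0⟩
  by_cases hH : stab C = ⊤
  · intro x
    obtain ⟨c, hc⟩ := sm_nonempty hZne L
    have hmem : (x - c) ∈ stab C := by rw [hH]; trivial
    have := (hmem c).mpr hc
    rwa [sub_add_cancel] at this
  · exfalso
    set H := stab C with hHdef
    set EH := els H with hEH
    have hEne : EH.Nonempty := ⟨0, mem_els.mpr H.zero_mem⟩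
    have hCH : C + EH = C := by
      apply Finset.Subset.antisymm
      · intro x hx
        rw [Finset.mem_add] at hx
        obtain ⟨c, hc, e, he, rfl⟩ := hx
        rw [hEH, mem_els] at he
        rw [add_comm]
        exact (he c).mpr hc
      · intro x hx
        rw [Finset.mem_add]
        exact ⟨x, hx, 0, mem_els.mpr H.zero_mem, add_zero x⟩
    have hEE : EH + EH = EH := by
      apply Finset.Subset.antisymm
      · intro x hx
        rw [Finset.mem_add] at hx
        obtain ⟨c, hc, e, he, rfl⟩ := hx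
        rw [hEH, mem_els] at *
        exact H.add_mem hc he
      · intro x hx
        rw [Finset.mem_add]
        exact ⟨x, hx, 0, mem_els.mpr H.zero_mem, add_zero x⟩
    -- stabilizers of partial sums
    have hst : ∀ j, j ≤ L → stab (sm j Z + EH) ≤ H := by
      intro j hj
      obtain ⟨i, rfl⟩ := Nat.exists_eq_add_of_le hj
      have h1 := stab_le_stab_add (sm j Z + EH) (sm i Z)
      have h2 : sm j Z + EH + sm i Z = C := by
        rw [add_right_comm, ← sm_add, ← hC, hCH]
      rw [h2] at h1
      exact h1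
    have hHst : ∀ j, H ≤ stab (sm j Z + EH) := by
      intro j g hg
      apply mem_stab_of_forall
      intro x hx
      rw [Finset.mem_add] at hx ⊢
      obtain ⟨a, ha, b, hb, rfl⟩ := hx
      refine ⟨a, ha, g + b, ?_, by abel⟩
      rw [hEH, mem_els] at *
      exact H.add_mem hg hb
    have hZH : 2 * EH.card ≤ (Z + EH).card := by
      obtain ⟨z, hz, hzH⟩ := hgen H hH
      have hsub : EH ∪ EH.image (fun e => z + e) ⊆ Z + EH := by
        intro x hx
        rw [Finset.mem_union, Finset.mem_image] at hx
        rw [Finset.mem_add]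
        rcases hx with hx | ⟨e, he, rfl⟩
        · exact ⟨0, h0, x, hx, zero_add x⟩
        · exact ⟨z, hz, e, he, rfl⟩
      have hdis : Disjoint EH (EH.image (fun e => z + e)) := by
        rw [Finset.disjoint_left]
        intro x hx hx2
        rw [Finset.mem_image] at hx2
        obtain ⟨e, he, rfl⟩ := hx2
        rw [hEH, mem_els] at hx he
        apply hzH
        have := H.sub_mem hx he
        rwa [add_sub_cancel_right] at this
      have hc := Finset.card_le_card hsub
      rw [Finset.card_union_of_disjoint hdis,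
        Finset.card_image_of_injective _ (add_right_injective z)] at hc
      omega
    have hZle : Z.card ≤ (Z + EH).card := by
      apply Finset.card_le_card
      intro x hx
      rw [Finset.mem_add]
      exact ⟨x, hx, 0, mem_els.mpr H.zero_mem, add_zero x⟩
    have hind : ∀ j, 1 ≤ j → j ≤ L → j * Z.card ≤ 2 * (sm j Z + EH).card := by
      intro j
      induction j with
      | zero => intro h; omega
      | succ j ih =>
        intro _ hjL
        rcases Nat.eq_zero_or_pos j with rfl | hj
        · rw [sm_one]; omega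
        · have h1 := ih hj (by omega)
          have h2 := kneser ((sm_nonempty hZne j).add hEne) (hZne.add hEne)
          have h3 : sm j Z + EH + (Z + EH) = sm (j + 1) Z + EH := by
            rw [sm_succ, add_add_add_comm, hEE]
          rw [h3] at h2
          have h4 := card_els_le_of_le (hst (j + 1) hjL)
          rw [← hEH] at h4
          rw [Nat.succ_mul]
          omega
    have hfin := hind L hL le_rfl
    have hle : (sm L Z + EH).card ≤ Fintype.card G := by
      rw [← Finset.card_univ]
      exact Finset.card_le_card (Finset.subset_univ _)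
    omega

/-- the number of new elements after translation by `z` -/
def phi (S : Finset G) (z : G) : ℕ := ((S.image (fun x => x + z)) \ S).card

theorem phi_zero (S : Finset G) : phi S 0 = 0 := by
  unfold phi
  simp

theorem phi_add (S : Finset G) (y z : G) : phi S (y + z) ≤ phi S y + phi S z := by
  unfold phi
  have hsub : (S.image (fun x => x + (y + z))) \ S ⊆
      (((S.image (fun x => x + y)) \ S).image (fun x => x + z)) ∪
        ((S.image (fun x => x + z)) \ S) := by
    intro x hx
    rw [Finset.mem_sdiff, Finset.mem_image] at hx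
    obtain ⟨⟨s, hs, rfl⟩, hxS⟩ := hx
    rw [Finset.mem_union]
    by_cases h : s + y ∈ S
    · right
      rw [Finset.mem_sdiff, Finset.mem_image]
      exact ⟨⟨s + y, h, by abel⟩, hxS⟩
    · left
      rw [Finset.mem_image]
      refine ⟨s + y, ?_, by abel⟩
      rw [Finset.mem_sdiff, Finset.mem_image]
      exact ⟨⟨s, hs, rfl⟩, h⟩
  refine (Finset.card_le_card hsub).trans ((Finset.card_union_le _ _).trans ?_)
  exact Nat.add_le_add_right Finset.card_image_le _

theorem phi_sm {S Z : Finset G} {δ : ℕ} (h : ∀ z ∈ Z, phi S z ≤ δ) (j : ℕ) :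
    ∀ x ∈ sm j Z, phi S x ≤ j * δ := by
  induction j with
  | zero =>
    intro x hx
    rw [sm_zero, Finset.mem_singleton] at hx
    rw [hx, phi_zero]
    exact Nat.zero_le _
  | succ j ih =>
    intro x hx
    rw [sm_succ, Finset.mem_add] at hx
    obtain ⟨a, ha, b, hb, rfl⟩ := hx
    have h1 := ih a ha
    have h2 := h b hb
    have h3 := phi_add S a b
    rw [Nat.succ_mul]
    omega

theorem sum_phi (S : Finset G) : ∑ z : G, phi S z = S.card * (Fintype.card G - S.card) := by
  classical
  unfold phi
  have h1 : ∀ z : G, ((S.image (fun x => x + z)) \ S).card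
      = ∑ s ∈ S, if s + z ∈ S then 0 else 1 := by
    intro z
    have : (S.image (fun x => x + z)) \ S = (S.filter (fun s => s + z ∉ S)).image (fun x => x + z) := by
      ext x
      simp only [Finset.mem_sdiff, Finset.mem_image, Finset.mem_filter]
      constructor
      · rintro ⟨⟨s, hs, rfl⟩, h⟩
        exact ⟨s, ⟨hs, h⟩, rfl⟩
      · rintro ⟨s, ⟨hs, h⟩, rfl⟩
        exact ⟨⟨s, hs, rfl⟩, h⟩
    rw [this, Finset.card_image_of_injective _ (add_left_injective z), Finset.card_filter]
    apply Finset.sum_congr rfl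
    intro s _
    by_cases h : s + z ∈ S <;> simp [h]
  simp_rw [h1]
  rw [Finset.sum_comm]
  have h2 : ∀ s ∈ S, (∑ z : G, if s + z ∈ S then 0 else 1) = Fintype.card G - S.card := by
    intro s _
    have : (∑ z : G, if s + z ∈ S then 0 else 1) = ∑ z : G, if z ∈ S then 0 else 1 := by
      apply Fintype.sum_equiv (Equiv.addLeft s)
      intro z
      rfl
    rw [this]
    have h3 : (∑ z : G, if z ∈ S then 0 else 1) = (univ.filter (fun z => z ∉ S)).card := by
      rw [Finset.card_filter]
      apply Finset.sum_congr rfl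
      intro z _
      by_cases h : z ∈ S <;> simp [h]
    rw [h3]
    have h4 : univ.filter (fun z => z ∉ S) = univ \ S := by
      ext x; simp
    rw [h4, Finset.card_sdiff_of_subset (Finset.subset_univ _), Finset.card_univ]
  rw [Finset.sum_congr rfl h2, Finset.sum_const, smul_eq_mul]

/-- growth step -/
theorem growth_step {S Z : Finset G} (hZ : Z.Nonempty) {L : ℕ} (hsm : ∀ x : G, x ∈ sm L Z) :
    ∃ z ∈ Z, S.card * (Fintype.card G - S.card) ≤ L * Fintype.card G * phi S z := by
  obtain ⟨z, hz, hmax⟩ := Finset.exists_max_image Z (phi S) hZ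
  refine ⟨z, hz, ?_⟩
  rw [← sum_phi]
  calc ∑ x : G, phi S x ≤ ∑ _x : G, L * phi S z :=
        Finset.sum_le_sum (fun x _ => phi_sm (fun y hy => hmax y hy) L x (hsm x))
    _ = L * Fintype.card G * phi S z := by
        rw [Finset.sum_const, smul_eq_mul, Finset.card_univ]; ring

/-- set of subset sums -/
def ss (U : Finset G) : Finset G := U.powerset.image (fun C => ∑ x ∈ C, x)

theorem mem_ss {U : Finset G} {x : G} : x ∈ ss U ↔ ∃ C ⊆ U, ∑ y ∈ C, y = x := by
  unfold ss
  rw [Finset.mem_image]
  simp only [Finset.mem_powerset]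

theorem ss_mono {U V : Finset G} (h : U ⊆ V) : ss U ⊆ ss V := by
  intro x hx
  rw [mem_ss] at hx ⊢
  obtain ⟨C, hC, hs⟩ := hx
  exact ⟨C, hC.trans h, hs⟩

theorem card_ss_insert {U : Finset G} {z : G} (hz : z ∉ U) :
    (ss U).card + phi (ss U) z ≤ (ss (insert z U)).card := by
  unfold phi
  have hdis : Disjoint (ss U) ((ss U).image (fun x => x + z) \ ss U) := Finset.disjoint_sdiff
  rw [← Finset.card_union_of_disjoint hdis]
  apply Finset.card_le_card
  intro x hx
  rw [Finset.mem_union] at hx
  rcases hx with hx | hx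
  · exact ss_mono (Finset.subset_insert _ _) hx
  · rw [Finset.mem_sdiff, Finset.mem_image] at hx
    obtain ⟨⟨y, hy, rfl⟩, _⟩ := hx
    rw [mem_ss] at hy ⊢
    obtain ⟨C, hC, rfl⟩ := hy
    refine ⟨insert z C, Finset.insert_subset_insert _ hC, ?_⟩
    rw [Finset.sum_insert (fun h => hz (hC h)), add_comm]

theorem card_ss_pos (U : Finset G) : 1 ≤ (ss U).card :=
  Finset.card_pos.mpr ⟨0, mem_ss.mpr ⟨∅, Finset.empty_subset _, by simp⟩⟩

section main

variable {Y : Finset G} {L s : ℕ}

/-- one step -/
theorem one_step (hgen : ∀ Z ⊆ Y, Y.card ≤ Z.card + s → ∀ x : G, x ∈ sm L (insert 0 Z))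
    {U : Finset G} (hU : U ⊆ Y) (hUs : U.card ≤ s) :
    ∃ V ⊆ Y, V.card ≤ U.card + 1 ∧
      (ss U).card * (Fintype.card G - (ss U).card) ≤
        L * Fintype.card G * ((ss V).card - (ss U).card) ∧ (ss U).card ≤ (ss V).card := by
  have hZ : ∀ x : G, x ∈ sm L (insert 0 (Y \ U)) := by
    apply hgen _ Finset.sdiff_subset
    rw [Finset.card_sdiff_of_subset hU]
    omega
  obtain ⟨z, hz, hstep⟩ := growth_step (S := ss U) (Finset.insert_nonempty 0 (Y \ U)) hZ
  rw [Finset.mem_insert, Finset.mem_sdiff] at hz
  rcases hz with rfl | ⟨hzY, hzU⟩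
  · refine ⟨U, hU, Nat.le_succ _, ?_, le_rfl⟩
    rw [phi_zero] at hstep
    simpa using hstep
  · refine ⟨insert z U, Finset.insert_subset hzY hU, ?_, ?_, ?_⟩
    · rw [Finset.card_insert_of_notMem hzU]
    · refine hstep.trans ?_
      gcongr
      have := card_ss_insert hzU
      omega
    · exact Finset.card_le_card (ss_mono (Finset.subset_insert _ _))

theorem phase_one_inner (hgen : ∀ Z ⊆ Y, Y.card ≤ Z.card + s → ∀ x : G, x ∈ sm L (insert 0 Z))
    (hLpos : 1 ≤ L) {U : Finset G} (hU : U ⊆ Y) (i : ℕ) (hi : U.card + i ≤ s) :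
    ∃ V ⊆ Y, V.card ≤ U.card + i ∧ (ss U).card ≤ (ss V).card ∧
      (Fintype.card G ≤ 2 * (ss V).card ∨
        2 * L * (ss U).card + i * (ss U).card ≤ 2 * L * (ss V).card) := by
  induction i with
  | zero => exact ⟨U, hU, by omega, le_rfl, Or.inr (by omega)⟩
  | succ i ih =>
    obtain ⟨V, hV, hVc, hmono, hVg⟩ := ih (by omega)
    rcases hVg with hVg | hVg
    · exact ⟨V, hV, by omega, hmono, Or.inl hVg⟩
    · by_cases hhalf : Fintype.card G ≤ 2 * (ss V).card
      · exact ⟨V, hV, by omega, hmono, Or.inl hhalf⟩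
      · obtain ⟨W, hW, hWc, hWg, hWm⟩ := one_step hgen hV (by omega)
        refine ⟨W, hW, by omega, hmono.trans hWm, Or.inr ?_⟩
        have hNpos : 0 < Fintype.card G := Fintype.card_pos
        set N := Fintype.card G
        set a := (ss V).card
        set b := (ss W).card
        set u := (ss U).card
        have h1 : N ≤ 2 * (N - a) := by omega
        have h2 : a * N ≤ 2 * (L * N * (b - a)) := by
          calc a * N ≤ a * (2 * (N - a)) := Nat.mul_le_mul_left _ h1
            _ = 2 * (a * (N - a)) := by ring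
            _ ≤ _ := Nat.mul_le_mul_left _ hWg
        have h3 : a ≤ 2 * L * (b - a) := by
          apply Nat.le_of_mul_le_mul_right _ hNpos
          calc a * N ≤ 2 * (L * N * (b - a)) := h2
            _ = 2 * L * (b - a) * N := by ring
        have h4 : 2 * L * b = 2 * L * a + 2 * L * (b - a) := by
          rw [← Nat.mul_add]; congr 1; omega
        have h5 : (i + 1) * u = i * u + u := Nat.succ_mul i u
        rw [h4, h5]
        omega

theorem phase_one (hgen : ∀ Z ⊆ Y, Y.card ≤ Z.card + s → ∀ x : G, x ∈ sm L (insert 0 Z))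
    (hLpos : 1 ≤ L) (j : ℕ) (hj : 2 * L * j ≤ s) :
    ∃ V ⊆ Y, V.card ≤ 2 * L * j ∧ (Fintype.card G ≤ 2 * (ss V).card ∨ 2 ^ j ≤ (ss V).card) := by
  induction j with
  | zero => exact ⟨∅, Finset.empty_subset _, by simp, Or.inr (by simpa using card_ss_pos ∅)⟩
  | succ j ih =>
    have hj' : 2 * L * j + 2 * L ≤ s := by rw [← Nat.mul_succ]; exact hj
    obtain ⟨U, hU, hUc, hUg⟩ := ih (by omega)
    rcases hUg with hUg | hUg
    · exact ⟨U, hU, by rw [Nat.mul_succ]; omega, Or.inl hUg⟩
    · obtain ⟨V, hV, hVc, _, hVg⟩ := phase_one_inner hgen hLpos hU (2 * L) (by omega)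
      refine ⟨V, hV, by rw [Nat.mul_succ]; omega, ?_⟩
      rcases hVg with hVg | hVg
      · exact Or.inl hVg
      · right
        have h1 : 2 * L * (2 * (ss U).card) ≤ 2 * L * (ss V).card := by
          calc 2 * L * (2 * (ss U).card) = 2 * L * (ss U).card + 2 * L * (ss U).card := by ring
            _ ≤ _ := hVg
        have h2 := Nat.le_of_mul_le_mul_left h1 (by omega)
        rw [pow_succ]
        omega

theorem phase_two_inner (hgen : ∀ Z ⊆ Y, Y.card ≤ Z.card + s → ∀ x : G, x ∈ sm L (insert 0 Z))
    (hLpos : 1 ≤ L) {U : Finset G} (hU : U ⊆ Y) (hUh : Fintype.card G ≤ 2 * (ss U).card) {c : ℕ}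
    (i : ℕ) (hi : U.card + i ≤ s) :
    ∃ V ⊆ Y, V.card ≤ U.card + i ∧ (ss U).card ≤ (ss V).card ∧
      (Fintype.card G - (ss V).card ≤ c ∨
        2 * L * (ss U).card + i * (c + 1) ≤ 2 * L * (ss V).card) := by
  induction i with
  | zero => exact ⟨U, hU, by omega, le_rfl, Or.inr (by omega)⟩
  | succ i ih =>
    obtain ⟨V, hV, hVc, hmono, hVg⟩ := ih (by omega)
    rcases hVg with hVg | hVg
    · exact ⟨V, hV, by omega, hmono, Or.inl hVg⟩
    · by_cases hc : Fintype.card G - (ss V).card ≤ c
      · exact ⟨V, hV, by omega, hmono, Or.inl hc⟩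
      · obtain ⟨W, hW, hWc, hWg, hWm⟩ := one_step hgen hV (by omega)
        refine ⟨W, hW, by omega, hmono.trans hWm, Or.inr ?_⟩
        have hNpos : 0 < Fintype.card G := Fintype.card_pos
        set N := Fintype.card G
        set a := (ss V).card
        set b := (ss W).card
        set u := (ss U).card
        have h1 : N ≤ 2 * a := by omega
        have h2 : (N - a) * N ≤ 2 * (L * N * (b - a)) := by
          calc (N - a) * N ≤ (N - a) * (2 * a) := Nat.mul_le_mul_left _ h1
            _ = 2 * (a * (N - a)) := by ring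
            _ ≤ _ := Nat.mul_le_mul_left _ hWg
        have h3 : N - a ≤ 2 * L * (b - a) := by
          apply Nat.le_of_mul_le_mul_right _ hNpos
          calc (N - a) * N ≤ 2 * (L * N * (b - a)) := h2
            _ = 2 * L * (b - a) * N := by ring
        have h4 : 2 * L * b = 2 * L * a + 2 * L * (b - a) := by
          rw [← Nat.mul_add]; congr 1; omega
        have h5 : (i + 1) * (c + 1) = i * (c + 1) + (c + 1) := Nat.succ_mul i (c + 1)
        rw [h4, h5]
        omega

theorem phase_two (hgen : ∀ Z ⊆ Y, Y.card ≤ Z.card + s → ∀ x : G, x ∈ sm L (insert 0 Z))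
    (hLpos : 1 ≤ L) {U : Finset G} (hU : U ⊆ Y) (hUh : Fintype.card G ≤ 2 * (ss U).card)
    (j : ℕ) (hj : U.card + 2 * L * j ≤ s) :
    ∃ V ⊆ Y, V.card ≤ U.card + 2 * L * j ∧ (ss U).card ≤ (ss V).card ∧
      2 ^ j * (Fintype.card G - (ss V).card) ≤ Fintype.card G := by
  induction j with
  | zero => exact ⟨U, hU, by omega, le_rfl, by simp⟩
  | succ j ih =>
    have hj' : U.card + (2 * L * j + 2 * L) ≤ s := by rw [← Nat.mul_succ]; exact hj
    obtain ⟨V, hV, hVc, hmono, hVg⟩ := ih (by omega)
    have hVh : Fintype.card G ≤ 2 * (ss V).card := by omega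
    obtain ⟨W, hW, hWc, hm2, hWg⟩ := phase_two_inner hgen hLpos hV hVh
      (c := (Fintype.card G - (ss V).card) / 2) (2 * L) (by omega)
    refine ⟨W, hW, by rw [Nat.mul_succ]; omega, hmono.trans hm2, ?_⟩
    have hkey : 2 * (Fintype.card G - (ss W).card) ≤ Fintype.card G - (ss V).card := by
      rcases hWg with hWg | hWg
      · omega
      · have h1 : 2 * L * ((ss V).card + ((Fintype.card G - (ss V).card) / 2 + 1))
            ≤ 2 * L * (ss W).card := by
          rw [Nat.mul_add]; exact hWg
        have h2 := Nat.le_of_mul_le_mul_left h1 (by omega)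
        omega
    calc 2 ^ (j + 1) * (Fintype.card G - (ss W).card)
        = 2 ^ j * (2 * (Fintype.card G - (ss W).card)) := by rw [pow_succ]; ring
      _ ≤ 2 ^ j * (Fintype.card G - (ss V).card) := Nat.mul_le_mul_left _ hkey
      _ ≤ _ := hVg

/-- All elements are subset sums. -/
theorem ss_full (hgen : ∀ Z ⊆ Y, Y.card ≤ Z.card + s → ∀ x : G, x ∈ sm L (insert 0 Z))
    (hLpos : 1 ≤ L) (hs : 4 * L * (Nat.log 2 (Fintype.card G) + 1) ≤ s) :
    ∀ x : G, ∃ C ⊆ Y, ∑ y ∈ C, y = x := by
  set N := Fintype.card G with hN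
  set k := Nat.log 2 N + 1 with hk
  have hlt : N < 2 ^ k := Nat.lt_pow_succ_log_self (by norm_num) N
  have h4 : 4 * L * k = 2 * L * k + 2 * L * k := by ring
  obtain ⟨U, hU, hUc, hUg⟩ := phase_one hgen hLpos k (by omega)
  have hUle : (ss U).card ≤ N := by
    rw [hN, ← Finset.card_univ]; exact Finset.card_le_card (Finset.subset_univ _)
  have hUh : N ≤ 2 * (ss U).card := by
    rcases hUg with h | h
    · exact h
    · omega
  obtain ⟨V, hV, _, _, hVg⟩ := phase_two hgen hLpos hU hUh k (by omega)
  have hzero : N - (ss V).card = 0 := by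
    by_contra hne
    have h1 : 1 ≤ N - (ss V).card := Nat.one_le_iff_ne_zero.mpr hne
    have h2 : 2 ^ k ≤ 2 ^ k * (N - (ss V).card) := Nat.le_mul_of_pos_right _ h1
    rw [← hN] at hVg
    omega
  have huniv : ss V = univ := by
    rw [← Finset.card_eq_iff_eq_univ]
    have : (ss V).card ≤ N := by
      rw [hN, ← Finset.card_univ]; exact Finset.card_le_card (Finset.subset_univ _)
    omega
  intro x
  have hx : x ∈ ss V := by rw [huniv]; exact Finset.mem_univ _
  rw [mem_ss] at hx
  obtain ⟨C, hC, hs⟩ := hx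
  exact ⟨C, hC.trans hV, hs⟩

end main

end Pool.Agent.Helper591.Growth
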