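import Mathlib
import Pool.Agent.Helper591.Kneser

/-!
A removal lemma for the equation `a + b + c = x` in finite abelian groups, deduced from the
triangle removal lemma of Mathlib.
-/

set_option linter.unusedSectionVars false

open Finset
open scoped Pointwise

namespace Pool.Agent.Helper591.Removal

open SimpleGraph SimpleGraph.TripartiteFromTriangles

variable {G : Type*} [AddCommGroup G] [Fintype G] [DecidableEq G]

/-- pairs `(a, b)` of elements of `A` with `x - a - b` in `A` -/
def sols (A : Finset G) (x : G) : Finset (G × G) :=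
  (A ×ˢ A).filter (fun p => x - p.1 - p.2 ∈ A)

/-- a set of solutions no two of which share a coordinate -/
def Matching (M : Finset (G × G)) : Prop :=
  ∀ p ∈ M, ∀ q ∈ M, p ≠ q → p.1 ≠ q.1 ∧ p.2 ≠ q.2 ∧ p.1 + p.2 ≠ q.1 + q.2

/-- the triangles attached to a set of solutions -/
def tri (M : Finset (G × G)) : Finset (G × G × G) :=
  (univ ×ˢ M).image (fun q : G × G × G => (q.1, q.1 + q.2.1, q.1 + q.2.1 + q.2.2))

theorem mem_tri {M : Finset (G × G)} {u v w : G} :
    (u, v, w) ∈ tri M ↔ (v - u, w - v) ∈ M := by
  unfold tri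
  rw [Finset.mem_image]
  constructor
  · rintro ⟨⟨u', a, b⟩, h, he⟩
    rw [Finset.mem_product] at h
    simp only [Prod.mk.injEq] at he
    obtain ⟨rfl, rfl, rfl⟩ := he
    have h1 : u' + a - u' = a := by abel
    have h2 : u' + a + b - (u' + a) = b := by abel
    rw [h1, h2]
    exact h.2
  · intro h
    refine ⟨(u, v - u, w - v), ?_, ?_⟩
    · rw [Finset.mem_product]
      exact ⟨Finset.mem_univ _, h⟩
    · simp only [Prod.mk.injEq]
      refine ⟨trivial, by abel, by abel⟩

theorem card_tri (M : Finset (G × G)) : (tri M).card = Fintype.card G * M.card := by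
  unfold tri
  rw [Finset.card_image_of_injective, Finset.card_product, Finset.card_univ]
  rintro ⟨u, a, b⟩ ⟨u', a', b'⟩ h
  simp only [Prod.mk.injEq] at h ⊢
  obtain ⟨h1, h2, h3⟩ := h
  subst h1
  have h2' := add_left_cancel h2
  subst h2'
  exact ⟨rfl, rfl, add_left_cancel h3⟩

theorem explicitDisjoint {M : Finset (G × G)} (hM : Matching M) : ExplicitDisjoint (tri M) where
  inj₀ := by
    intro a b c a' h1 h2
    rw [mem_tri] at h1 h2
    by_contra hne
    have := hM _ h1 _ h2 (by
      intro he
      rw [Prod.mk.injEq] at he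
      exact hne (sub_right_injective he.1))
    exact this.2.1 rfl
  inj₁ := by
    intro a b c b' h1 h2
    rw [mem_tri] at h1 h2
    by_contra hne
    have := hM _ h1 _ h2 (by
      intro he
      rw [Prod.mk.injEq] at he
      exact hne (sub_left_injective he.1))
    apply this.2.2
    show b - a + (c - b) = b' - a + (c - b')
    abel
  inj₂ := by
    intro a b c c' h1 h2
    rw [mem_tri] at h1 h2
    by_contra hne
    have := hM _ h1 _ h2 (by
      intro he
      rw [Prod.mk.injEq] at he
      exact hne (sub_left_injective he.2))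
    exact this.1 rfl

theorem card_cliques_le {M : Finset (G × G)} {A : Finset G} {x : G} (hMA : M ⊆ sols A x) :
    ((graph (tri M)).cliqueFinset 3).card ≤ Fintype.card G * (sols A x).card := by
  rw [← card_tri]
  have hsub : (graph (tri M)).cliqueFinset 3 ⊆ (tri (sols A x)).map toTriangle := by
    intro s hs
    rw [SimpleGraph.mem_cliqueFinset_iff, SimpleGraph.is3Clique_iff] at hs
    obtain ⟨y, z, w, hyz, hyw, hzw, rfl⟩ := hs
    obtain ⟨a, b, c, habc, hab, hac, hbc⟩ := graph_triple hyz hyw hzw
    rw [Finset.mem_map]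
    refine ⟨(a, b, c), ?_, habc⟩
    rw [Graph.in₀₁_iff] at hab
    rw [Graph.in₀₂_iff] at hac
    rw [Graph.in₁₂_iff] at hbc
    obtain ⟨c', hc'⟩ := hab
    obtain ⟨b', hb'⟩ := hac
    obtain ⟨a', ha'⟩ := hbc
    rw [mem_tri] at hc' hb' ha' ⊢
    have h1 := hMA hc'
    have h2 := hMA hb'
    have h3 := hMA ha'
    unfold sols at h1 h2 h3 ⊢
    rw [Finset.mem_filter, Finset.mem_product] at h1 h2 h3 ⊢
    refine ⟨⟨h1.1.1, h3.1.2⟩, ?_⟩
    have h4 := h2.2
    have he : x - (b' - a) - (c - b') = x - (b - a) - (c - b) := by abel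
    simpa [he] using h4
  calc _ ≤ ((tri (sols A x)).map toTriangle).card := Finset.card_le_card hsub
    _ = _ := Finset.card_map _

/-- a large matching of solutions forces many solutions -/
theorem many_sols {M : Finset (G × G)} {A : Finset G} {x : G} (hMA : M ⊆ sols A x)
    (hM : Matching M) {ε : ℝ} (hε : ε * Fintype.card G ≤ M.card) :
    triangleRemovalBound (ε / 9) * 27 * (Fintype.card G : ℝ) ^ 2 ≤ (sols A x).card := by
  have := explicitDisjoint hM
  have hpos : (0 : ℝ) < Fintype.card G := by
    exact_mod_cast Fintype.card_pos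
  have hfar : (graph (tri M)).FarFromTriangleFree (ε / 9) := by
    apply farFromTriangleFree
    rw [card_tri]
    push_cast
    nlinarith
  have h1 := hfar.le_card_cliqueFinset
  have h2 : (((graph (tri M)).cliqueFinset 3).card : ℝ) ≤ Fintype.card G * (sols A x).card := by
    exact_mod_cast card_cliques_le hMA
  have h3 : (Fintype.card (G ⊕ G ⊕ G) : ℝ) = 3 * Fintype.card G := by
    rw [Fintype.card_sum, Fintype.card_sum]
    push_cast
    ring
  rw [h3] at h1
  have h4 := h1.trans h2
  have h5 : triangleRemovalBound (ε / 9) * (3 * (Fintype.card G : ℝ)) ^ 3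
      = Fintype.card G * (triangleRemovalBound (ε / 9) * 27 * (Fintype.card G : ℝ) ^ 2) := by ring
  rw [h5] at h4
  exact le_of_mul_le_mul_left h4 hpos

/-- removal lemma for `a + b + c = x` -/
theorem removal {ε : ℝ} (hε : 0 < ε) : ∃ δ : ℝ, 0 < δ ∧ ∀ (G : Type) [AddCommGroup G] [Fintype G]
    [DecidableEq G] (A : Finset G) (x : G), ((sols A x).card : ℝ) < δ * (Fintype.card G : ℝ) ^ 2 →
    ∃ A' ⊆ A, ((A \ A').card : ℝ) < ε * Fintype.card G ∧
      ∀ a ∈ A', ∀ b ∈ A', ∀ c ∈ A', a + b + c ≠ x := by
  refine ⟨triangleRemovalBound (ε / 3 / 9) * 27, ?_, ?_⟩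
  · have := triangleRemovalBound_pos (ε := ε / 3 / 9) (by positivity)
    positivity
  intro G _ _ _ A x hlt
  classical
  let F : Finset (Finset (G × G)) := (sols A x).powerset.filter (fun M => Matching M)
  have hF : F.Nonempty := by
    refine ⟨∅, ?_⟩
    simp only [F, Finset.mem_filter, Finset.mem_powerset, Finset.empty_subset, true_and]
    intro p hp
    simp at hp
  obtain ⟨M, hMF, hmax⟩ := Finset.exists_max_image F Finset.card hF
  simp only [F, Finset.mem_filter, Finset.mem_powerset] at hMF hmax
  obtain ⟨hMA, hM⟩ := hMF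
  have hMlt : (M.card : ℝ) < ε / 3 * Fintype.card G := by
    by_contra hcon
    push Not at hcon
    exact absurd (many_sols hMA hM hcon) (not_le.mpr hlt)
  let D : Finset G := M.image Prod.fst ∪ M.image Prod.snd ∪ M.image (fun p => x - p.1 - p.2)
  refine ⟨A \ D, Finset.sdiff_subset, ?_, ?_⟩
  · have hsub : A \ (A \ D) ⊆ D := by
      intro y hy
      rw [Finset.mem_sdiff, Finset.mem_sdiff] at hy
      by_contra hyD
      exact hy.2 ⟨hy.1, hyD⟩
    have h1 : (A \ (A \ D)).card ≤ 3 * M.card := by
      calc (A \ (A \ D)).card ≤ D.card := Finset.card_le_card hsub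
        _ ≤ (M.image Prod.fst ∪ M.image Prod.snd).card + (M.image (fun p => x - p.1 - p.2)).card :=
            Finset.card_union_le _ _
        _ ≤ ((M.image Prod.fst).card + (M.image Prod.snd).card)
            + (M.image (fun p => x - p.1 - p.2)).card :=
            Nat.add_le_add_right (Finset.card_union_le _ _) _
        _ ≤ (M.card + M.card) + M.card :=
            Nat.add_le_add (Nat.add_le_add Finset.card_image_le Finset.card_image_le)
              Finset.card_image_le
        _ = 3 * M.card := by ring
    have h2 : ((A \ (A \ D)).card : ℝ) ≤ 3 * M.card := by exact_mod_cast h1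
    linarith
  · intro a ha b hb c hc habc
    rw [Finset.mem_sdiff] at ha hb hc
    simp only [D, Finset.mem_union, Finset.mem_image, not_or, not_exists, not_and] at ha hb hc
    have hceq : x - a - b = c := by rw [← habc]; abel
    have hsol : (a, b) ∈ sols A x := by
      unfold sols
      rw [Finset.mem_filter, Finset.mem_product]
      refine ⟨⟨ha.1, hb.1⟩, ?_⟩
      show x - a - b ∈ A
      rw [hceq]
      exact hc.1
    have hnot : (a, b) ∉ M := fun h => ha.2.1.1 (a, b) h rfl
    have hins : Matching (insert (a, b) M) := by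
      intro p hp q hq hpq
      rw [Finset.mem_insert] at hp hq
      rcases hp with rfl | hp <;> rcases hq with rfl | hq
      · exact absurd rfl hpq
      · refine ⟨fun h => ha.2.1.1 q hq h.symm, fun h => hb.2.1.2 q hq h.symm, fun h => ?_⟩
        apply hc.2.2 q hq
        rw [← hceq, sub_sub, sub_sub, ← h]
      · refine ⟨fun h => ha.2.1.1 p hp h, fun h => hb.2.1.2 p hp h, fun h => ?_⟩
        apply hc.2.2 p hp
        rw [← hceq, sub_sub, sub_sub, ← h]
      · exact hM p hp q hq hpq
    have := hmax (insert (a, b) M) ⟨Finset.insert_subset hsol hMA, hins⟩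
    rw [Finset.card_insert_of_notMem hnot] at this
    omega

end Pool.Agent.Helper591.Removal
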