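import Mathlib
import Pool.Agent.Helper591.Growth

/-!
Signed zero-sums: choice of the essential subgroup and covering by subset sums.
-/

set_option linter.unusedSectionVars false
set_option linter.unusedVariables false

open Finset
open scoped Pointwise

namespace Pool.Agent.Helper591.Signed

open Pool.Agent.Helper591.Kneser Pool.Agent.Helper591.Growth

variable {G : Type*} [AddCommGroup G] [Fintype G] [DecidableEq G]

open Classical in
/-- Covering of a subgroup by subset sums. -/
theorem cover (H : AddSubgroup G) (X : Finset G) (hX : ∀ x ∈ X, x ∈ H) {s L : ℕ} (hL : 1 ≤ L)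
    (hP : ∀ P : AddSubgroup G, P ≤ H → P ≠ H → s < (X.filter (fun x => x ∉ P)).card)
    (hbig : 2 * Nat.card H < L * (X.card - s))
    (hs : 4 * L * (Nat.log 2 (Nat.card H) + 1) ≤ s) :
    ∀ h ∈ H, ∃ C ⊆ X, ∑ x ∈ C, x = h := by
  intro h hh
  set Y : Finset H := univ.filter (fun y : H => (y : G) ∈ X) with hY
  have himg : Y.image (fun y : H => (y : G)) = X := by
    ext x
    rw [Finset.mem_image]
    constructor
    · rintro ⟨y, hy, rfl⟩
      rw [hY, Finset.mem_filter] at hy
      exact hy.2
    · intro hx
      refine ⟨⟨x, hX x hx⟩, ?_, rfl⟩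
      rw [hY, Finset.mem_filter]
      exact ⟨Finset.mem_univ _, hx⟩
  have hinj : Function.Injective (fun y : H => (y : G)) := Subtype.val_injective
  have hYc : Y.card = X.card := by
    rw [← himg, Finset.card_image_of_injective _ hinj]
  have hcardH : Fintype.card H = Nat.card H := Nat.card_eq_fintype_card.symm
  have hgen : ∀ Z ⊆ Y, Y.card ≤ Z.card + s → ∀ x : H, x ∈ sm L (insert 0 Z) := by
    intro Z hZ hZc
    apply sm_eq_univ (Finset.mem_insert_self _ _) _ hL
    · have h1 : Z.card ≤ (insert (0 : H) Z).card := Finset.card_le_card (Finset.subset_insert _ _)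
      rw [hcardH]
      refine lt_of_lt_of_le hbig (Nat.mul_le_mul_left _ ?_)
      omega
    · intro P hPne
      have hP1 : P.map H.subtype ≤ H := by
        rintro x ⟨y, _, rfl⟩
        exact y.2
      have hP2 : P.map H.subtype ≠ H := by
        intro heq
        apply hPne
        rw [eq_top_iff]
        intro y _
        have : (y : G) ∈ P.map H.subtype := by rw [heq]; exact y.2
        obtain ⟨z, hz, hzy⟩ := this
        have : z = y := Subtype.ext hzy
        rw [← this]; exact hz
      have h1 := hP _ hP1 hP2
      by_contra hcon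
      push Not at hcon
      have hsub : X.filter (fun x => x ∉ P.map H.subtype) ⊆ (Y \ Z).image (fun y : H => (y : G)) := by
        intro x hx
        rw [Finset.mem_filter] at hx
        rw [Finset.mem_image]
        refine ⟨⟨x, hX x hx.1⟩, ?_, rfl⟩
        rw [Finset.mem_sdiff]
        constructor
        · rw [hY, Finset.mem_filter]
          exact ⟨Finset.mem_univ _, hx.1⟩
        · intro hz
          apply hx.2
          exact ⟨⟨x, hX x hx.1⟩, hcon _ (Finset.mem_insert_of_mem hz), rfl⟩
      have h2 := Finset.card_le_card hsub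
      rw [Finset.card_image_of_injective _ hinj, Finset.card_sdiff_of_subset hZ] at h2
      omega
  obtain ⟨C, hC, hsum⟩ := ss_full hgen hL (by rw [hcardH]; exact hs) ⟨h, hh⟩
  refine ⟨C.image (fun y : H => (y : G)), ?_, ?_⟩
  · rw [← himg]
    exact Finset.image_subset_image hC
  · rw [Finset.sum_image (fun a _ b _ hab => hinj hab)]
    have := congrArg (fun y : H => (y : G)) hsum
    simpa using this

open Classical in
/-- Choice of the essential subgroup. -/
theorem exists_essential (A : Finset G) (l : ℕ) :
    ∃ H : AddSubgroup G, (A.filter (fun x => x ∉ H)).card ≤ l * Nat.log 2 H.index ∧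
      ∀ P : AddSubgroup G, P ≤ H → P ≠ H →
        l < ((A.filter (fun x => x ∈ H)).filter (fun x => x ∉ P)).card := by
  set S : Set (AddSubgroup G) :=
    {H | (A.filter (fun x => x ∉ H)).card ≤ l * Nat.log 2 H.index} with hS
  have hne : S.Nonempty := ⟨⊤, by simp [hS]⟩
  obtain ⟨H, hHS, hmin⟩ :=
    (measure (fun H : AddSubgroup G => Nat.card H)).wf.has_min S hne
  refine ⟨H, hHS, ?_⟩
  intro P hPH hPne
  have hcardlt : Nat.card P < Nat.card H := by
    have h1 : (P : Set G) ⊂ (H : Set G) := by
      rw [Set.ssubset_iff_subset_ne]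
      exact ⟨hPH, fun h => hPne (SetLike.coe_injective h)⟩
    exact Set.Finite.card_lt_card (Set.toFinite _) h1
  have hPnot : P ∉ S := fun h => hmin P h hcardlt
  rw [hS, Set.mem_setOf_eq, not_le] at hPnot
  have hHS' : (A.filter (fun x => x ∉ H)).card ≤ l * Nat.log 2 H.index := hHS
  -- index at least doubles
  have hidx : 2 * H.index ≤ P.index := by
    have h1 : H.index * Nat.card H = P.index * Nat.card P := by
      rw [AddSubgroup.index_mul_card, AddSubgroup.index_mul_card]
    have h2 : P.relIndex H * H.index = P.index := AddSubgroup.relIndex_mul_index hPH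
    have h3 : P.relIndex H ≠ 1 := by
      intro h
      rw [AddSubgroup.relIndex_eq_one] at h
      exact hPne (le_antisymm hPH h)
    have h4 : P.relIndex H ≠ 0 := by
      intro h
      rw [h, zero_mul] at h2
      exact AddSubgroup.index_ne_zero_of_finite h2.symm
    rw [← h2]
    apply Nat.mul_le_mul_right
    omega
  have hHpos : H.index ≠ 0 := AddSubgroup.index_ne_zero_of_finite
  have hlog : Nat.log 2 H.index + 1 ≤ Nat.log 2 P.index := by
    have h1 : Nat.log 2 (2 * H.index) = Nat.log 2 H.index + 1 := by
      rw [mul_comm, Nat.log_mul_base (by norm_num) hHpos]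
    rw [← h1]
    exact Nat.log_mono_right hidx
  have hsplit : (A.filter (fun x => x ∉ P)).card ≤
      (A.filter (fun x => x ∉ H)).card +
        ((A.filter (fun x => x ∈ H)).filter (fun x => x ∉ P)).card := by
    rw [← Finset.card_union_of_disjoint]
    · apply Finset.card_le_card
      intro x hx
      rw [Finset.mem_filter] at hx
      rw [Finset.mem_union, Finset.mem_filter, Finset.mem_filter, Finset.mem_filter]
      by_cases h : x ∈ H
      · right; exact ⟨⟨hx.1, h⟩, hx.2⟩
      · left; exact ⟨hx.1, h⟩
    · rw [Finset.disjoint_left]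
      intro x hx hx2
      rw [Finset.mem_filter] at hx
      rw [Finset.mem_filter, Finset.mem_filter] at hx2
      exact hx.2 hx2.1.2
  have h5 : l * (Nat.log 2 H.index + 1) ≤ l * Nat.log 2 P.index := Nat.mul_le_mul_left _ hlog
  rw [Nat.mul_succ] at h5
  omega

end Pool.Agent.Helper591.Signed
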