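import Mathlib
import Pool.Agent.Helper591.Kneser
import Pool.Agent.Helper591.Removal

/-!
Sets without three distinct elements of sum `x` in a large finite abelian group.
-/

set_option linter.unusedSectionVars false

open Finset
open scoped Pointwise

namespace Pool.Agent.Helper591.Three

open Pool.Agent.Helper591.Kneser Pool.Agent.Helper591.Removal

section basic

variable {G : Type*} [AddCommGroup G] [Fintype G] [DecidableEq G]

/-- `x` is a sum of three distinct elements of `A` -/
def Rep3 (A : Finset G) (x : G) : Prop :=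
  ∃ a ∈ A, ∃ b ∈ A, ∃ c ∈ A, a ≠ b ∧ a ≠ c ∧ b ≠ c ∧ a + b + c = x

theorem card_sols_le {A : Finset G} {x : G} (h : ¬ Rep3 A x) :
    (sols A x).card ≤ 3 * Fintype.card G := by
  have hsub : sols A x ⊆ univ.image (fun a : G => (a, a)) ∪ univ.image (fun a : G => (a, x - a - a))
      ∪ univ.image (fun b : G => (x - b - b, b)) := by
    rintro ⟨a, b⟩ hab
    unfold sols at hab
    rw [Finset.mem_filter, Finset.mem_product] at hab
    obtain ⟨⟨ha, hb⟩, hc⟩ := hab
    have hc' : x - a - b ∈ A := hc
    have ha' : a ∈ A := ha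
    have hb' : b ∈ A := hb
    by_contra hcon
    simp only [Finset.mem_union, Finset.mem_image, Finset.mem_univ, true_and, Prod.mk.injEq,
      not_or, not_exists, not_and] at hcon
    apply h
    refine ⟨a, ha', b, hb', x - a - b, hc', ?_, ?_, ?_, by abel⟩
    · intro hab
      exact hcon.1.1 a rfl hab
    · intro hac
      refine hcon.1.2 a rfl ?_
      have h1 : x - a = a + b := by rw [eq_comm, sub_eq_iff_eq_add] at hac; exact hac
      rw [h1]; abel
    · intro hbc
      refine hcon.2 b ?_ rfl
      have h1 : x - a = b + b := by rw [eq_comm, sub_eq_iff_eq_add] at hbc; exact hbc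
      have h2 : x = b + b + a := by rw [sub_eq_iff_eq_add] at h1; exact h1
      rw [h2]; abel
  calc (sols A x).card ≤ _ := Finset.card_le_card hsub
    _ ≤ (univ.image (fun a : G => (a, a))).card + (univ.image (fun a : G => (a, x - a - a))).card
      + (univ.image (fun b : G => (x - b - b, b))).card :=
        (Finset.card_union_le _ _).trans (Nat.add_le_add_right (Finset.card_union_le _ _) _)
    _ ≤ Fintype.card G + Fintype.card G + Fintype.card G :=
        Nat.add_le_add (Nat.add_le_add Finset.card_image_le Finset.card_image_le)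
          Finset.card_image_le
    _ = 3 * Fintype.card G := by ring

theorem card_els_dvd {H : AddSubgroup G} {B : Finset G} (h : H ≤ stab B) :
    (els H).card ∣ B.card := by
  classical
  let f : G → G ⧸ H := fun x => (x : G ⧸ H)
  have h1 : B.card = ∑ q ∈ B.image f, (B.filter (fun x => f x = q)).card :=
    Finset.card_eq_sum_card_image f B
  have h2 : ∀ q ∈ B.image f, (B.filter (fun x => f x = q)).card = (els H).card := by
    intro q hq
    rw [Finset.mem_image] at hq
    obtain ⟨b, hb, rfl⟩ := hq
    have : B.filter (fun x => f x = f b) = (els H).image (fun k => k + b) := by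
      ext y
      rw [Finset.mem_filter, Finset.mem_image]
      constructor
      · rintro ⟨_, hfy⟩
        refine ⟨y - b, ?_, by abel⟩
        rw [mem_els]
        have h3 : (b : G ⧸ H) = (y : G ⧸ H) := hfy.symm
        rw [QuotientAddGroup.eq] at h3
        have : y - b = -b + y := by abel
        rw [this]
        exact h3
      · rintro ⟨k, hk, rfl⟩
        rw [mem_els] at hk
        refine ⟨(h hk b).mpr hb, ?_⟩
        show ((k + b : G) : G ⧸ H) = (b : G ⧸ H)
        rw [eq_comm, QuotientAddGroup.eq]
        have : -b + (k + b) = k := by abel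
        rw [this]
        exact hk
    rw [this, Finset.card_image_of_injective _ (add_left_injective b)]
  rw [h1, Finset.sum_congr rfl h2, Finset.sum_const, smul_eq_mul]
  exact Dvd.intro_left _ rfl

theorem card_els_dvd_card (H : AddSubgroup G) : (els H).card ∣ Fintype.card G := by
  have : H ≤ stab (univ : Finset G) := by
    intro g _ x
    simp
  exact card_els_dvd this

theorem subset_add_els (A : Finset G) (H : AddSubgroup G) : A ⊆ A + els H := by
  intro a ha
  rw [Finset.mem_add]
  exact ⟨a, ha, 0, mem_els.mpr H.zero_mem, add_zero a⟩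

theorem le_stab_add_els (A : Finset G) (H : AddSubgroup G) : H ≤ stab (A + els H) := by
  intro g hg
  apply mem_stab_of_forall
  intro x hx
  rw [Finset.mem_add] at hx ⊢
  obtain ⟨a, ha, k, hk, rfl⟩ := hx
  rw [mem_els] at hk
  exact ⟨a, ha, g + k, mem_els.mpr (H.add_mem hg hk), by abel⟩

theorem hull_sum (A : Finset G) :
    (A + els (stab (A + A + A))) + (A + els (stab (A + A + A))) + (A + els (stab (A + A + A)))
      = A + A + A := by
  set H := stab (A + A + A) with hH
  apply Finset.Subset.antisymm
  · intro y hy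
    rw [Finset.mem_add] at hy
    obtain ⟨u, hu, c, hc, rfl⟩ := hy
    rw [Finset.mem_add] at hu hc
    obtain ⟨a, ha, b, hb, rfl⟩ := hu
    obtain ⟨c, hc, k3, hk3, rfl⟩ := hc
    rw [Finset.mem_add] at ha hb
    obtain ⟨a, ha, k1, hk1, rfl⟩ := ha
    obtain ⟨b, hb, k2, hk2, rfl⟩ := hb
    rw [mem_els] at hk1 hk2 hk3
    have hk : k1 + k2 + k3 ∈ stab (A + A + A) := H.add_mem (H.add_mem hk1 hk2) hk3
    have h1 : a + k1 + (b + k2) + (c + k3) = (k1 + k2 + k3) + (a + b + c) := by abel
    rw [h1]
    exact (hk _).mpr (Finset.add_mem_add (Finset.add_mem_add ha hb) hc)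
  · have hs := subset_add_els A H
    exact Finset.add_subset_add (Finset.add_subset_add hs hs) hs

/-- arithmetic of the main case distinction -/
theorem arith {p q v h d a a' : ℕ} (hp : 0 < p) (_hh : 0 < h) (hq : 0 < q)
    (h1 : 12 * p * (p + 1) * d < q * h) (h2 : (p + 1) * (q * h) < 3 * p * a)
    (h3 : a = a' + d) (h4 : a' ≤ v * h) (h5 : 3 * v ≤ q + 1) (h6 : q < p → q % 3 ≠ 2) :
    q = p ∧ 3 * v = p + 1 := by
  have h7 : 4 * (p + 1) * (p + 1) * q < 12 * p * (p + 1) * v + q := by
    have h8 : 4 * (p + 1) * ((p + 1) * (q * h)) < 4 * (p + 1) * (3 * p * a) := by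
      apply Nat.mul_lt_mul_of_pos_left h2 (by positivity)
    have h9 : 4 * (p + 1) * (3 * p * a) ≤ 12 * p * (p + 1) * (v * h) + 12 * p * (p + 1) * d := by
      rw [h3]
      have : 12 * p * (p + 1) * a' ≤ 12 * p * (p + 1) * (v * h) := Nat.mul_le_mul_left _ h4
      nlinarith
    have h10 : 4 * (p + 1) * (p + 1) * q * h < (12 * p * (p + 1) * v + q) * h := by nlinarith
    exact Nat.lt_of_mul_lt_mul_right h10
  have h11 : q ≤ p := by
    by_contra hcon
    push Not at hcon
    have h12 : 12 * p * (p + 1) * v ≤ 4 * p * (p + 1) * (q + 1) := by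
      calc 12 * p * (p + 1) * v = 4 * p * (p + 1) * (3 * v) := by ring
        _ ≤ _ := Nat.mul_le_mul_left _ h5
    have h13 : 4 * (p + 1) * (p + 1) * q < 4 * p * (p + 1) * (q + 1) + q := by omega
    obtain ⟨r, hr⟩ : ∃ r, q = p + 1 + r := ⟨q - (p + 1), by omega⟩
    rw [hr] at h13
    nlinarith
  rcases lt_or_eq_of_le h11 with hlt | heq
  · exfalso
    have h14 := h6 hlt
    have h15 : 3 * v ≤ q := by omega
    have h16 : 12 * p * (p + 1) * v ≤ 4 * p * (p + 1) * q := by
      calc 12 * p * (p + 1) * v = 4 * p * (p + 1) * (3 * v) := by ring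
        _ ≤ _ := Nat.mul_le_mul_left _ h15
    nlinarith
  · refine ⟨heq, ?_⟩
    rw [heq] at h7 h5
    have h17 : p + 1 ≤ 3 * v := by
      by_contra hcon
      push Not at hcon
      have h18 : 3 * v + 1 ≤ p + 1 := hcon
      have h19 : 12 * p * (p + 1) * v + 4 * p * (p + 1) ≤ 4 * (p + 1) * (p + 1) * p := by
        calc 12 * p * (p + 1) * v + 4 * p * (p + 1) = 4 * p * (p + 1) * (3 * v + 1) := by ring
          _ ≤ 4 * p * (p + 1) * (p + 1) := Nat.mul_le_mul_left _ h18
          _ = _ := by ring
      nlinarith
    omega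

/-- the structural step -/
theorem step {p : ℕ} (hp : 0 < p) (hdiv : ∀ q, q ∣ Fintype.card G → q < p → q % 3 ≠ 2)
    (h2tor : ∀ c : G, 6 * p * (univ.filter (fun y : G => y + y = c)).card ≤ 5 * Fintype.card G)
    {A A' : Finset G} {x : G} (hAA : A' ⊆ A)
    (hd : 12 * p * (p + 1) * (A \ A').card < Fintype.card G)
    (hbig : (p + 1) * Fintype.card G < 3 * p * A.card)
    (hno : ∀ a ∈ A', ∀ b ∈ A', ∀ c ∈ A', a + b + c ≠ x) : Rep3 A x := by
  classical
  set n := Fintype.card G with hn
  have hcard : A.card = A'.card + (A \ A').card := by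
    rw [Finset.card_sdiff_of_subset hAA]
    have := Finset.card_le_card hAA
    omega
  have hA'ne : A'.Nonempty := by
    rw [Finset.nonempty_iff_ne_empty]
    intro h0
    rw [h0, Finset.card_empty, zero_add] at hcard
    rw [h0, ← hcard] at hd
    have : 3 * p * A.card ≤ 12 * p * (p + 1) * A.card := by
      apply Nat.mul_le_mul_right
      nlinarith
    nlinarith
  set H := stab (A' + A' + A') with hH
  set B := A' + els H with hB
  have hBne : B.Nonempty := hA'ne.mono (subset_add_els A' H)
  have hBBB : B + B + B = A' + A' + A' := hull_sum A'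
  have hxS : x ∉ A' + A' + A' := by
    intro hx
    rw [Finset.mem_add] at hx
    obtain ⟨u, hu, c, hc, he⟩ := hx
    rw [Finset.mem_add] at hu
    obtain ⟨a, ha, b, hb, rfl⟩ := hu
    exact hno a ha b hb c hc he
  have hHB : H ≤ stab B := le_stab_add_els A' H
  have hstabBB : stab (B + B) ≤ H := by
    have := stab_le_stab_add (B + B) B
    rw [hBBB] at this
    exact this
  have hk1 := kneser hBne hBne
  have hk2 := kneser (hBne.add hBne) hBne
  rw [hBBB, ← hH] at hk2
  have hk3 := card_els_le_of_le hstabBB
  have hcompl : (A' + A' + A').card + (els H).card ≤ n := by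
    have hdis : Disjoint (A' + A' + A') ((els H).image (fun k => k + x)) := by
      rw [Finset.disjoint_right]
      intro y hy
      rw [Finset.mem_image] at hy
      obtain ⟨k, hk, rfl⟩ := hy
      rw [mem_els] at hk
      intro hcon
      exact hxS ((hk x).mp hcon)
    have h1 : ((els H).image (fun k => k + x)).card = (els H).card :=
      Finset.card_image_of_injective _ (add_left_injective x)
    rw [← h1, ← Finset.card_union_of_disjoint hdis, hn]
    exact Finset.card_le_univ _
  have hposh : 0 < (els H).card := card_els_pos H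
  obtain ⟨v, hv⟩ := card_els_dvd hHB
  obtain ⟨q, hq⟩ := card_els_dvd_card H
  rw [← hn] at hq
  set h := (els H).card with hh
  have hA'B : A'.card ≤ B.card := Finset.card_le_card (subset_add_els A' H)
  have hBn : 3 * B.card ≤ n + h := by omega
  have hvq : 3 * v ≤ q + 1 := by
    rw [hv, hq] at hBn
    have : h * (3 * v) ≤ h * (q + 1) := by nlinarith
    exact Nat.le_of_mul_le_mul_left this hposh
  have hqpos : 0 < q := by
    rcases Nat.eq_zero_or_pos q with h0 | h0
    · rw [h0, mul_zero] at hq
      have : 0 < n := by rw [hn]; exact Fintype.card_pos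
      omega
    · exact h0
  have hqdvd : q ∣ n := ⟨h, by rw [hq, mul_comm]⟩
  obtain ⟨hqp, h3v⟩ := arith (p := p) (q := q) (v := v) (h := h) (d := (A \ A').card) (a := A.card)
    (a' := A'.card) hp hposh hqpos (by rw [mul_comm q h, ← hq]; exact hd)
    (by rw [mul_comm q h, ← hq]; exact hbig) hcard (by rw [mul_comm v h, ← hv]; exact hA'B) hvq
    (hdiv q hqdvd)
  have h3B : 3 * B.card = n + h := by
    rw [hv, hq, hqp]
    have : 3 * (h * v) = h * (3 * v) := by ring
    rw [this, h3v]
    ring
  have haB : B.card < A.card := by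
    have h1 : (p + 1) * n = p * (3 * B.card) := by rw [h3B, hq, hqp]; ring
    rw [h1] at hbig
    have h2 : p * (3 * B.card) < p * (3 * A.card) := by nlinarith
    have := Nat.lt_of_mul_lt_mul_left h2
    omega
  obtain ⟨a0, ha0, ha0B⟩ : ∃ a0 ∈ A, a0 ∉ B := by
    by_contra hcon
    push Not at hcon
    have := Finset.card_le_card (show A ⊆ B from hcon)
    omega
  have hmem : x - a0 ∈ B + B := by
    by_contra hcon
    let Q : Finset G := univ.filter (fun z => x - z ∉ B + B)
    have hQcard : Q.card + (B + B).card = n := by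
      have h1 : Q.card = ((B + B)ᶜ).card := by
        apply Finset.card_bij (fun z _ => x - z)
        · intro z hz
          simp only [Q, Finset.mem_filter, Finset.mem_univ, true_and] at hz
          rw [Finset.mem_compl]
          exact hz
        · intro z1 _ z2 _ he
          exact sub_right_injective he
        · intro y hy
          refine ⟨x - y, ?_, by abel⟩
          simp only [Q, Finset.mem_filter, Finset.mem_univ, true_and]
          rw [Finset.mem_compl] at hy
          have : x - (x - y) = y := by abel
          rw [this]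
          exact hy
      rw [h1, hn, add_comm]
      exact Finset.card_add_card_compl _
    have hBQ : insert a0 B ⊆ Q := by
      intro z hz
      simp only [Q, Finset.mem_filter, Finset.mem_univ, true_and]
      rw [Finset.mem_insert] at hz
      rcases hz with rfl | hz
      · exact hcon
      · intro hzz
        apply hxS
        rw [← hBBB]
        have : x = (x - z) + z := by abel
        rw [this]
        exact Finset.add_mem_add hzz hz
    have h2 := Finset.card_le_card hBQ
    rw [Finset.card_insert_of_notMem ha0B] at h2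
    omega
  rw [Finset.mem_add] at hmem
  obtain ⟨b1, hb1, b2, hb2, hb12⟩ := hmem
  -- the coset of b1
  let Y : Finset G := (els H).image (fun k => k + b1)
  have hYcard : Y.card = h := Finset.card_image_of_injective _ (add_left_injective b1)
  have hYB : ∀ y ∈ Y, y ∈ B ∧ x - a0 - y ∈ B := by
    intro y hy
    simp only [Y, Finset.mem_image] at hy
    obtain ⟨k, hk, rfl⟩ := hy
    rw [mem_els] at hk
    refine ⟨(hHB hk b1).mpr hb1, ?_⟩
    have h1 : x - a0 - (k + b1) = -k + b2 := by rw [← hb12]; abel
    rw [h1]
    exact (hHB (H.neg_mem hk) b2).mpr hb2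
  have hbad : (B \ A').card + 1 ≤ (A \ A').card := by
    have e1 : (B \ A').card = B.card - A'.card :=
      Finset.card_sdiff_of_subset (subset_add_els A' H)
    rw [e1]
    omega
  by_contra hcon
  have hcover : Y ⊆ (B \ A') ∪ (B \ A').image (fun z => x - a0 - z) ∪
      univ.filter (fun y : G => y + y = x - a0) := by
    intro y hy
    obtain ⟨hyB, hzB⟩ := hYB y hy
    by_contra hy2
    simp only [Finset.mem_union, Finset.mem_image, Finset.mem_sdiff, Finset.mem_filter,
      Finset.mem_univ, true_and, not_or, not_and, not_not, not_exists] at hy2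
    obtain ⟨⟨h1, h2⟩, h3⟩ := hy2
    have hyA : y ∈ A' := h1 hyB
    have hzA : x - a0 - y ∈ A' := by
      by_contra hz
      exact h2 (x - a0 - y) ⟨hzB, hz⟩ (by abel)
    apply hcon
    refine ⟨a0, ha0, y, hAA hyA, x - a0 - y, hAA hzA, ?_, ?_, ?_, by abel⟩
    · rintro rfl
      exact ha0B hyB
    · intro he
      rw [← he] at hzB
      exact ha0B hzB
    · intro he
      apply h3
      rw [eq_comm, sub_eq_iff_eq_add] at he
      exact he.symm
  have h1 := Finset.card_le_card hcover
  have h2 : ((B \ A') ∪ (B \ A').image (fun z => x - a0 - z) ∪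
      univ.filter (fun y : G => y + y = x - a0)).card ≤ (B \ A').card + (B \ A').card +
      (univ.filter (fun y : G => y + y = x - a0)).card :=
    (Finset.card_union_le _ _).trans (Nat.add_le_add_right ((Finset.card_union_le _ _).trans
      (Nat.add_le_add_left Finset.card_image_le _)) _)
  have h3 := h2tor (x - a0)
  rw [hYcard] at h1
  rw [hq, hqp] at h3 hd
  set T := (univ.filter (fun y : G => y + y = x - a0)).card with hT
  have h4 : 6 * T ≤ 5 * h := by
    have : p * (6 * T) ≤ p * (5 * h) := by nlinarith
    exact Nat.le_of_mul_le_mul_left this hp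
  have h5 : 12 * (p + 1) * (A \ A').card < h := by
    have : p * (12 * (p + 1) * (A \ A').card) < p * h := by nlinarith
    exact Nat.lt_of_mul_lt_mul_left this
  have h6 : 24 * (A \ A').card ≤ 12 * (p + 1) * (A \ A').card := by
    apply Nat.mul_le_mul_right
    omega
  omega

end basic

/-- main theorem: every element is a sum of three distinct elements of a set of more than
`(1 + 1/p)|G|/3` elements, if no divisor of `|G|` below `p` is `2` mod `3` and `|G|` is large -/
theorem core {p : ℕ} (hp : 0 < p) : ∃ N : ℕ, ∀ (G : Type) [AddCommGroup G] [Fintype G]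
    [DecidableEq G], N ≤ Fintype.card G → (∀ q, q ∣ Fintype.card G → q < p → q % 3 ≠ 2) →
    (∀ c : G, 6 * p * (univ.filter (fun y : G => y + y = c)).card ≤ 5 * Fintype.card G) →
    ∀ (A : Finset G) (x : G), (p + 1) * Fintype.card G < 3 * p * A.card → Rep3 A x := by
  have hε : (0 : ℝ) < 1 / (12 * p * (p + 1)) := by
    have : (0 : ℝ) < p := by exact_mod_cast hp
    positivity
  obtain ⟨δ, hδ, hrem⟩ := removal hε
  obtain ⟨N, hN⟩ := exists_nat_gt (3 / δ)
  refine ⟨N, ?_⟩
  intro G _ _ _ hNG hdiv h2tor A x hbig
  by_contra hcon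
  have h1 := card_sols_le hcon
  have hn : (3 / δ : ℝ) < Fintype.card G := lt_of_lt_of_le hN (by exact_mod_cast hNG)
  have hn0 : (0 : ℝ) < Fintype.card G := lt_trans (by positivity) hn
  rw [div_lt_iff₀ hδ] at hn
  have h2 : ((sols A x).card : ℝ) < δ * (Fintype.card G : ℝ) ^ 2 := by
    have h3 : ((sols A x).card : ℝ) ≤ 3 * Fintype.card G := by exact_mod_cast h1
    nlinarith
  obtain ⟨A', hAA, hcardlt, hno⟩ := hrem G A x h2
  apply hcon
  refine step hp hdiv h2tor hAA ?_ hbig hno
  have hp' : (0 : ℝ) < p := by exact_mod_cast hp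
  have h4 : (12 * p * (p + 1) : ℝ) * (A \ A').card < Fintype.card G := by
    rw [one_div, inv_mul_eq_div, lt_div_iff₀ (by positivity)] at hcardlt
    linarith
  exact_mod_cast h4

end Pool.Agent.Helper591.Three
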