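import Mathlib
import Pool.Agent.Helper591.Three

/-!
Homomorphisms onto cyclic groups of prime order, extremal sets, the case of even order.
-/

set_option linter.unusedSectionVars false

open Finset
open scoped Pointwise

namespace Pool.Agent.Helper591.Three

open Pool.Agent.Helper591.Kneser Pool.Agent.Helper591.Removal

theorem exists_functional' {Q : Type} [AddCommGroup Q] {p : ℕ} [Fact p.Prime]
    [Module (ZMod p) Q] {y : Q} (hy : y ≠ 0) :
    ∃ f : Q →+ ZMod p, Function.Surjective f := by
  obtain ⟨φ, hφ⟩ : ∃ φ : Q →ₗ[ZMod p] ZMod p, φ y ≠ 0 := by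
    by_contra hcon
    push Not at hcon
    exact hy ((Module.forall_dual_apply_eq_zero_iff (ZMod p) _).mp hcon)
  refine ⟨φ.toAddMonoidHom, ?_⟩
  intro c
  refine ⟨(c / φ y) • y, ?_⟩
  show φ _ = c
  rw [map_smul, smul_eq_mul]
  exact div_mul_cancel₀ c hφ

theorem exists_functional {Q : Type} [AddCommGroup Q] {p : ℕ} [Fact p.Prime]
    (hmod : ∀ q : Q, p • q = 0) {y : Q} (hy : y ≠ 0) :
    ∃ f : Q →+ ZMod p, Function.Surjective f :=
  let _ : Module (ZMod p) Q := AddCommGroup.zmodModule hmod
  exists_functional' hy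

theorem exists_hom (G : Type) [AddCommGroup G] [Fintype G] (p : ℕ) [Fact p.Prime]
    (h : p ∣ Fintype.card G) : ∃ f : G →+ ZMod p, Function.Surjective f := by
  classical
  have hp : p.Prime := Fact.out
  let m : G →+ G := nsmulAddMonoidHom p
  have hm : ∀ x, m x = p • x := fun x => rfl
  obtain ⟨x, hx⟩ := exists_prime_addOrderOf_dvd_card p h
  have hninj : ¬ Function.Injective m := by
    intro hinj
    have h1 : m x = m 0 := by
      rw [hm, hm, smul_zero, ← hx]
      exact addOrderOf_nsmul_eq_zero x
    have h2 := hinj h1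
    rw [h2, addOrderOf_zero] at hx
    exact hp.one_lt.ne hx
  have hnsurj : ¬ Function.Surjective m := fun hs => hninj (Finite.injective_iff_surjective.mpr hs)
  obtain ⟨y, hy⟩ : ∃ y, y ∉ m.range := by
    by_contra hcon
    push Not at hcon
    exact hnsurj (fun y => AddMonoidHom.mem_range.mp (hcon y))
  have hmod : ∀ q : G ⧸ m.range, p • q = 0 := by
    intro q
    obtain ⟨z, rfl⟩ := QuotientAddGroup.mk'_surjective m.range q
    rw [← map_nsmul]
    exact (QuotientAddGroup.eq_zero_iff _).mpr ⟨z, rfl⟩
  have hne : QuotientAddGroup.mk' m.range y ≠ 0 := by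
    intro h0
    exact hy ((QuotientAddGroup.eq_zero_iff _).mp h0)
  obtain ⟨f, hf⟩ := exists_functional hmod hne
  exact ⟨f.comp (QuotientAddGroup.mk' _), hf.comp (QuotientAddGroup.mk'_surjective _)⟩

theorem card_fiber {G : Type} [AddCommGroup G] [Fintype G] [DecidableEq G] {p : ℕ} [NeZero p]
    (f : G →+ ZMod p) (hf : Function.Surjective f) (b : ZMod p) :
    p * (univ.filter (fun x => f x = b)).card = Fintype.card G := by
  have h1 : ∀ c : ZMod p, (univ.filter (fun x => f x = c)).card
      = (univ.filter (fun x => f x = b)).card := fun c =>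
    AddMonoidHom.card_fiber_eq_of_mem_range f (hf c) (hf b)
  have h2 : Fintype.card G = ∑ c : ZMod p, (univ.filter (fun x => f x = c)).card := by
    rw [← Finset.card_univ]
    exact Finset.card_eq_sum_card_fiberwise (fun x _ => Finset.mem_coe.mpr (Finset.mem_univ _))
  rw [h2, Finset.sum_congr rfl (fun c _ => h1 c), Finset.sum_const, Finset.card_univ, ZMod.card,
    smul_eq_mul]

theorem card_preimage {G : Type} [AddCommGroup G] [Fintype G] [DecidableEq G] {p : ℕ} [NeZero p]
    (f : G →+ ZMod p) (hf : Function.Surjective f) (B : Finset (ZMod p)) :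
    p * (univ.filter (fun x => f x ∈ B)).card = Fintype.card G * B.card := by
  have h2 : (univ.filter (fun x => f x ∈ B)).card
      = ∑ c ∈ B, ((univ.filter (fun x => f x ∈ B)).filter (fun x => f x = c)).card := by
    apply Finset.card_eq_sum_card_fiberwise
    intro x hx
    simpa using hx
  have h3 : ∀ c ∈ B, p * ((univ.filter (fun x => f x ∈ B)).filter (fun x => f x = c)).card
      = Fintype.card G := by
    intro c hc
    rw [← card_fiber f hf c]
    congr 2
    ext x
    simp only [Finset.mem_filter, Finset.mem_univ, true_and]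
    constructor
    · exact fun h => h.2
    · intro h
      exact ⟨h ▸ hc, h⟩
  rw [h2, Finset.mul_sum, Finset.sum_congr rfl h3, Finset.sum_const, smul_eq_mul, mul_comm]

/-- the set `{s, s+1, ..., s+k}` modulo `p` -/
def seg (p s k : ℕ) : Finset (ZMod p) := (range (k + 1)).image (fun i => ((s + i : ℕ) : ZMod p))

theorem card_seg {p s k : ℕ} (h : k < p) : (seg p s k).card = k + 1 := by
  unfold seg
  rw [Finset.card_image_of_injOn, Finset.card_range]
  intro i hi j hj hij
  simp only [Finset.coe_range, Set.mem_Iio] at hi hj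
  have h1 : ((s + i : ℕ) : ZMod p) = ((s + j : ℕ) : ZMod p) := hij
  rw [ZMod.natCast_eq_natCast_iff] at h1
  have h2 : i ≡ j [MOD p] := Nat.ModEq.add_left_cancel' s h1
  unfold Nat.ModEq at h2
  rw [Nat.mod_eq_of_lt (by omega), Nat.mod_eq_of_lt (by omega)] at h2
  exact h2

theorem mem_seg {p s k : ℕ} {x : ZMod p} (h : x ∈ seg p s k) :
    ∃ i, i ≤ k ∧ x = ((s + i : ℕ) : ZMod p) := by
  unfold seg at h
  rw [Finset.mem_image] at h
  obtain ⟨i, hi, rfl⟩ := h
  rw [Finset.mem_range] at hi
  exact ⟨i, by omega, rfl⟩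

theorem seg_sum {p k : ℕ} (hpk : p = 3 * k + 2) {x y z : ZMod p} (hx : x ∈ seg p (k + 1) k)
    (hy : y ∈ seg p (k + 1) k) (hz : z ∈ seg p (k + 1) k) : x + y + z ≠ 0 := by
  obtain ⟨i, hi, rfl⟩ := mem_seg hx
  obtain ⟨j, hj, rfl⟩ := mem_seg hy
  obtain ⟨l, hl, rfl⟩ := mem_seg hz
  rw [← Nat.cast_add, ← Nat.cast_add]
  intro h
  rw [ZMod.natCast_eq_zero_iff] at h
  obtain ⟨c, hc⟩ := h
  have h1 : 1 < c := by
    by_contra hcon
    push Not at hcon
    have : p * c ≤ p * 1 := Nat.mul_le_mul_left p hcon
    omega
  have h2 : p * 2 ≤ p * c := Nat.mul_le_mul_left p h1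
  omega

/-- the extremal set for `p = 3k + 2` -/
theorem lower_two {G : Type} [AddCommGroup G] [Fintype G] [DecidableEq G] {p : ℕ} (hp : p.Prime)
    (h3 : p % 3 = 2) (hdvd : p ∣ Fintype.card G) :
    ∃ A : Finset G, (∀ x ∈ A, ∀ y ∈ A, ∀ z ∈ A, x + y + z ≠ 0) ∧
      3 * p * A.card = (p + 1) * Fintype.card G := by
  have : Fact p.Prime := ⟨hp⟩
  obtain ⟨f, hf⟩ := exists_hom G p hdvd
  obtain ⟨k, hk⟩ : ∃ k, p = 3 * k + 2 := ⟨p / 3, by omega⟩
  refine ⟨univ.filter (fun x => f x ∈ seg p (k + 1) k), ?_, ?_⟩
  · intro x hx y hy z hz h0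
    simp only [Finset.mem_filter, Finset.mem_univ, true_and] at hx hy hz
    apply seg_sum hk hx hy hz
    rw [← map_add, ← map_add, h0, map_zero]
  · have h1 := card_preimage f hf (seg p (k + 1) k)
    rw [card_seg (by omega)] at h1
    rw [mul_assoc, h1, hk]
    ring

/-- sets with at least `|G|/2 + 2` elements -/
theorem rep3_of_half {G : Type} [AddCommGroup G] [Fintype G] [DecidableEq G] {A : Finset G}
    (h : Fintype.card G + 4 ≤ 2 * A.card) (x : G) : Rep3 A x := by
  obtain ⟨z, hz, hz1⟩ : ∃ z ∈ A, (A.filter (fun y => x - y - y = z)).card ≤ 1 := by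
    by_contra hcon
    push Not at hcon
    have h1 : ∑ z ∈ A, 2 ≤ ∑ z ∈ A, (A.filter (fun y => x - y - y = z)).card :=
      Finset.sum_le_sum (fun z hz => hcon z hz)
    have h2 : ∑ z ∈ A, (A.filter (fun y => x - y - y = z)).card ≤ A.card := by
      have h3 : ∑ z ∈ A, (A.filter (fun y => x - y - y = z)).card
          = (A.filter (fun y => x - y - y ∈ A)).card := by
        rw [Finset.card_eq_sum_card_fiberwise (f := fun y => x - y - y)
          (s := A.filter (fun y => x - y - y ∈ A)) (t := A)]
        · apply Finset.sum_congr rfl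
          intro z hz
          congr 1
          ext y
          simp only [Finset.mem_filter]
          constructor
          · rintro ⟨h4, h5⟩
            exact ⟨⟨h4, h5 ▸ hz⟩, h5⟩
          · rintro ⟨⟨h4, _⟩, h5⟩
            exact ⟨h4, h5⟩
        · intro y hy
          exact (Finset.mem_filter.mp (Finset.mem_coe.mp hy)).2
      rw [h3]
      exact Finset.card_filter_le _ _
    rw [Finset.sum_const, smul_eq_mul] at h1
    omega
  let Y : Finset G := A.filter (fun y => x - z - y ∈ A)
  have hY : 2 * A.card ≤ Y.card + Fintype.card G := by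
    have h1 : Y = A ∩ A.image (fun y => x - z - y) := by
      ext y
      simp only [Y, Finset.mem_filter, Finset.mem_inter, Finset.mem_image]
      constructor
      · rintro ⟨h2, h3⟩
        exact ⟨h2, x - z - y, h3, by abel⟩
      · rintro ⟨h2, w, hw, hwy⟩
        refine ⟨h2, ?_⟩
        have : x - z - y = w := by rw [← hwy]; abel
        rw [this]
        exact hw
    have h2 : (A.image (fun y => x - z - y)).card = A.card :=
      Finset.card_image_of_injective _ sub_right_injective
    have h3 := Finset.card_union_add_card_inter A (A.image (fun y => x - z - y))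
    have h4 : (A ∪ A.image (fun y => x - z - y)).card ≤ Fintype.card G := Finset.card_le_univ _
    rw [h1]
    omega
  by_contra hcon
  have hcov : Y ⊆ {z} ∪ {x - z - z} ∪ A.filter (fun y => x - y - y = z) := by
    intro y hy
    simp only [Y, Finset.mem_filter] at hy
    by_contra hy2
    simp only [Finset.mem_union, Finset.mem_singleton, Finset.mem_filter, not_or, not_and] at hy2
    obtain ⟨⟨h1, h2⟩, h3⟩ := hy2
    apply hcon
    refine ⟨z, hz, y, hy.1, x - z - y, hy.2, fun h => h1 h.symm, ?_, ?_, by abel⟩
    · intro he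
      apply h2
      rw [eq_sub_iff_add_eq] at he
      rw [← he]
      abel
    · intro he
      apply h3 hy.1
      rw [eq_sub_iff_add_eq] at he
      have : x = y + y + z := by rw [he]; abel
      rw [this]
      abel
  have h1 := Finset.card_le_card hcov
  have h2 : ({z} ∪ {x - z - z} ∪ A.filter (fun y => x - y - y = z)).card ≤ 1 + 1 + 1 := by
    refine (Finset.card_union_le _ _).trans (Nat.add_le_add ?_ hz1)
    exact (Finset.card_union_le _ _).trans (by simp)
  omega

/-- the number of doubles -/
def doubles (G : Type) [AddCommGroup G] [Fintype G] [DecidableEq G] : ℕ :=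
  (univ.image (fun g : G => g + g)).card

theorem doubles_mul {G : Type} [AddCommGroup G] [Fintype G] [DecidableEq G] (c : G)
    (hc : c ∈ univ.image (fun g : G => g + g)) :
    doubles G * (univ.filter (fun y : G => y + y = c)).card = Fintype.card G := by
  let f : G →+ G := nsmulAddMonoidHom 2
  have hf : ∀ g, f g = g + g := fun g => two_nsmul g
  have h2 : Fintype.card G = ∑ b ∈ univ.image (fun g : G => g + g),
      (univ.filter (fun x : G => x + x = b)).card := by
    rw [← Finset.card_univ]
    exact Finset.card_eq_sum_card_fiberwise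
      (fun x _ => Finset.mem_coe.mpr (Finset.mem_image_of_mem _ (Finset.mem_univ _)))
  have h1 : ∀ b ∈ univ.image (fun g : G => g + g), (univ.filter (fun x : G => x + x = b)).card
      = (univ.filter (fun x : G => x + x = c)).card := by
    intro b hb
    rw [Finset.mem_image] at hb hc
    obtain ⟨b', _, hb'⟩ := hb
    obtain ⟨c', _, hc'⟩ := hc
    have := AddMonoidHom.card_fiber_eq_of_mem_range f (x := b) (y := c) ⟨b', by rw [hf, hb']⟩
      ⟨c', by rw [hf, hc']⟩
    simpa [hf] using this
  rw [h2, Finset.sum_congr rfl h1, Finset.sum_const, smul_eq_mul]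
  rfl

theorem card_halves_le {G : Type} [AddCommGroup G] [Fintype G] [DecidableEq G] (c : G) :
    doubles G * (univ.filter (fun y : G => y + y = c)).card ≤ Fintype.card G := by
  by_cases hc : c ∈ univ.image (fun g : G => g + g)
  · exact (doubles_mul c hc).le
  · have : univ.filter (fun y : G => y + y = c) = ∅ := by
      apply Finset.filter_eq_empty_iff.mpr
      intro y _ hy
      exact hc (Finset.mem_image.mpr ⟨y, Finset.mem_univ _, hy⟩)
    rw [this, Finset.card_empty, mul_zero]
    exact Nat.zero_le _

end Pool.Agent.Helper591.Three
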