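import Mathlib
import Pool.Agent.Helper591.ThreeAux

/-!
Upper and lower bounds for sets without three distinct elements of prescribed sum.
-/

set_option linter.unusedSectionVars false

open Finset
open scoped Pointwise

namespace Pool.Agent.Helper591.Three

open Pool.Agent.Helper591.Kneser Pool.Agent.Helper591.Removal

theorem exists_prime_two (q : ℕ) (hq : q % 3 = 2) : ∃ r, r.Prime ∧ r % 3 = 2 ∧ r ∣ q := by
  induction q using Nat.strong_induction_on with
  | _ q ih =>
    have hq1 : q ≠ 1 := by rintro rfl; omega
    have hr := Nat.minFac_prime hq1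
    obtain ⟨s, hs⟩ := Nat.minFac_dvd q
    set r := q.minFac with hrdef
    have h3 : q % 3 = ((r % 3) * (s % 3)) % 3 := by rw [hs, Nat.mul_mod]
    have hr3 : r % 3 < 3 := Nat.mod_lt _ (by norm_num)
    have hs3 : s % 3 < 3 := Nat.mod_lt _ (by norm_num)
    by_cases h2 : r % 3 = 2
    · exact ⟨r, hr, h2, ⟨s, hs⟩⟩
    · have h4 : s % 3 = 2 := by
        interval_cases h5 : r % 3 <;> interval_cases h6 : s % 3 <;> omega
      have hspos : 0 < s := by
        rcases Nat.eq_zero_or_pos s with h0 | h0
        · rw [h0] at h4; omega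
        · exact h0
      have hlt : s < q := by
        rw [hs]
        have := hr.two_le
        nlinarith
      obtain ⟨r', hr', h5, h6⟩ := ih s hlt h4
      exact ⟨r', hr', h5, h6.trans ⟨r, by rw [hs, mul_comm]⟩⟩

theorem halves_le_one {G : Type} [AddCommGroup G] [Fintype G] [DecidableEq G]
    (hodd : ¬ 2 ∣ Fintype.card G) (c : G) : (univ.filter (fun y : G => y + y = c)).card ≤ 1 := by
  rw [Finset.card_le_one]
  intro y hy z hz
  simp only [Finset.mem_filter, Finset.mem_univ, true_and] at hy hz
  have h1 : (y - z) + (y - z) = 0 := by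
    have : (y - z) + (y - z) = (y + y) - (z + z) := by abel
    rw [this, hy, hz, sub_self]
  have h2 : Fintype.card G • (y - z) = 0 := card_nsmul_eq_zero
  obtain ⟨m, hm⟩ : ∃ m, Fintype.card G = m * 2 + 1 := ⟨Fintype.card G / 2, by omega⟩
  rw [hm, add_nsmul, mul_nsmul', two_nsmul, h1, smul_zero, one_nsmul, zero_add] at h2
  exact sub_eq_zero.mp h2

/-- the upper bound, `p` the least prime `2` mod `3` dividing the order -/
theorem upper_two {p : ℕ} (hp : p.Prime) (h3 : p % 3 = 2) : ∃ N : ℕ, ∀ (G : Type) [AddCommGroup G]
    [Fintype G] [DecidableEq G], N ≤ Fintype.card G →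
    (∀ q, q.Prime → q % 3 = 2 → q ∣ Fintype.card G → p ≤ q) → (p = 2 → 2 < doubles G) →
    ∀ (A : Finset G) (x : G), (p + 1) * Fintype.card G < 3 * p * A.card → Rep3 A x := by
  obtain ⟨N, hN⟩ := core hp.pos
  refine ⟨max N (2 * p), ?_⟩
  intro G _ _ _ hNG hleast hdb A x hbig
  refine hN G (le_trans (le_max_left _ _) hNG) ?_ ?_ A x hbig
  · intro q hq hqp hq3
    obtain ⟨r, hr, hr3, hrq⟩ := exists_prime_two q hq3
    have h1 := hleast r hr hr3 (hrq.trans hq)
    have h2 := Nat.le_of_dvd (by omega) hrq
    omega
  · intro c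
    by_cases h2 : p = 2
    · have h4 := hdb h2
      have h5 := card_halves_le c
      rw [h2]
      nlinarith
    · have hodd : ¬ 2 ∣ Fintype.card G := by
        intro hd
        have h4 := hleast 2 Nat.prime_two (by norm_num) hd
        have := hp.two_le
        omega
      have h4 := halves_le_one hodd c
      have h5 : 2 * p ≤ Fintype.card G := le_trans (le_max_right _ _) hNG
      calc 6 * p * (univ.filter (fun y : G => y + y = c)).card ≤ 6 * p * 1 :=
            Nat.mul_le_mul_left _ h4
        _ ≤ 5 * Fintype.card G := by omega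

/-- the upper bound without prime factors `2` mod `3` -/
theorem upper_eps {ε : ℝ} (hε : 0 < ε) : ∃ N : ℕ, ∀ (G : Type) [AddCommGroup G]
    [Fintype G] [DecidableEq G], N ≤ Fintype.card G →
    (∀ q, q.Prime → q ∣ Fintype.card G → q % 3 ≠ 2) →
    ∀ (A : Finset G) (x : G), ¬ Rep3 A x → (A.card : ℝ) ≤ (1 / 3 + ε) * Fintype.card G := by
  obtain ⟨δ, hδ, hrem⟩ := removal hε
  obtain ⟨N, hN⟩ := exists_nat_gt (3 / δ)
  refine ⟨N, ?_⟩
  intro G _ _ _ hNG hdiv A x hcon
  have h1 := card_sols_le hcon
  have hn : (3 / δ : ℝ) < Fintype.card G := lt_of_lt_of_le hN (by exact_mod_cast hNG)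
  have hn0 : (0 : ℝ) < Fintype.card G := lt_trans (by positivity) hn
  rw [div_lt_iff₀ hδ] at hn
  have h2 : ((sols A x).card : ℝ) < δ * (Fintype.card G : ℝ) ^ 2 := by
    have h3 : ((sols A x).card : ℝ) ≤ 3 * Fintype.card G := by exact_mod_cast h1
    nlinarith
  obtain ⟨A', hAA, hcardlt, hno⟩ := hrem G A x h2
  have hcard : (A.card : ℝ) = A'.card + (A \ A').card := by
    have : A.card = A'.card + (A \ A').card := by
      rw [Finset.card_sdiff_of_subset hAA]
      have := Finset.card_le_card hAA
      omega
    exact_mod_cast this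
  suffices h : 3 * A'.card ≤ Fintype.card G by
    have h' : (3 : ℝ) * A'.card ≤ Fintype.card G := by exact_mod_cast h
    rw [hcard]
    linarith
  rcases A'.eq_empty_or_nonempty with h0 | hA'ne
  · rw [h0]; simp
  set H := stab (A' + A' + A') with hH
  set B := A' + els H with hB
  have hBne : B.Nonempty := hA'ne.mono (subset_add_els A' H)
  have hBBB : B + B + B = A' + A' + A' := hull_sum A'
  have hxS : x ∉ A' + A' + A' := by
    intro hx
    rw [Finset.mem_add] at hx
    obtain ⟨u, hu, c, hc, he⟩ := hx
    rw [Finset.mem_add] at hu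
    obtain ⟨a, ha, b, hb, rfl⟩ := hu
    exact hno a ha b hb c hc he
  have hHB : H ≤ stab B := le_stab_add_els A' H
  have hstabBB : stab (B + B) ≤ H := by
    have := stab_le_stab_add (B + B) B
    rw [hBBB] at this
    exact this
  have hk1 := kneser hBne hBne
  have hk2 := kneser (hBne.add hBne) hBne
  rw [hBBB, ← hH] at hk2
  have hk3 := card_els_le_of_le hstabBB
  have hcompl : (A' + A' + A').card + (els H).card ≤ Fintype.card G := by
    have hdis : Disjoint (A' + A' + A') ((els H).image (fun k => k + x)) := by
      rw [Finset.disjoint_right]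
      intro y hy
      rw [Finset.mem_image] at hy
      obtain ⟨k, hk, rfl⟩ := hy
      rw [mem_els] at hk
      intro hcon
      exact hxS ((hk x).mp hcon)
    have h1 : ((els H).image (fun k => k + x)).card = (els H).card :=
      Finset.card_image_of_injective _ (add_left_injective x)
    rw [← h1, ← Finset.card_union_of_disjoint hdis]
    exact Finset.card_le_univ _
  have hposh : 0 < (els H).card := card_els_pos H
  obtain ⟨v, hv⟩ := card_els_dvd hHB
  obtain ⟨q, hq⟩ := card_els_dvd_card H
  set h := (els H).card with hh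
  have hA'B : A'.card ≤ B.card := Finset.card_le_card (subset_add_els A' H)
  have hBn : 3 * B.card ≤ Fintype.card G + h := by omega
  have hvq : 3 * v ≤ q + 1 := by
    rw [hv, hq] at hBn
    have : h * (3 * v) ≤ h * (q + 1) := by nlinarith
    exact Nat.le_of_mul_le_mul_left this hposh
  have hq3 : q % 3 ≠ 2 := by
    intro hq3
    obtain ⟨r, hr, hr3, hrq⟩ := exists_prime_two q hq3
    exact hdiv r hr (hrq.trans ⟨h, by rw [hq, mul_comm]⟩) hr3
  have h3v : 3 * v ≤ q := by omega
  calc 3 * A'.card ≤ 3 * B.card := Nat.mul_le_mul_left 3 hA'B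
    _ = h * (3 * v) := by rw [hv]; ring
    _ ≤ h * q := Nat.mul_le_mul_left h h3v
    _ = Fintype.card G := hq.symm

/-- the exceptional groups of even order -/
theorem lower_exc {G : Type} [AddCommGroup G] [Fintype G] [DecidableEq G]
    (h2 : 2 ∣ Fintype.card G) (hd : doubles G ≤ 2) :
    ∃ A : Finset G, ¬ Rep3 A 0 ∧ 2 * A.card = Fintype.card G + 2 := by
  by_cases hall : ∀ g : G, g + g = 0
  · have e1 : ((1 : ZMod 2) + 1 + 1) ≠ 0 := by decide
    have e2 : (0 : ZMod 2) ≠ 1 := by decide
    have : Fact (Nat.Prime 2) := ⟨Nat.prime_two⟩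
    obtain ⟨f, hf⟩ := exists_hom G 2 h2
    have h1 := card_fiber f hf 1
    refine ⟨insert 0 (univ.filter (fun x => f x = 1)), ?_, ?_⟩
    · rintro ⟨a, ha, b, hb, c, hc, hab, hac, hbc, hsum⟩
      have key : ∀ u v w : G, f u = 1 → f v = 1 → f w = 1 → u + v + w ≠ 0 := by
        intro u v w hu hv hw h0
        have := congrArg f h0
        rw [map_add, map_add, hu, hv, hw, map_zero] at this
        exact e1 this
      have key2 : ∀ u v : G, u + v = 0 → u = v := by
        intro u v huv
        have := hall v
        rw [← huv] at this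
        exact (add_right_cancel this).symm
      rw [Finset.mem_insert, Finset.mem_filter] at ha hb hc
      rcases ha with rfl | ⟨_, ha⟩
      · exact hbc (key2 b c (by rw [← hsum]; abel))
      rcases hb with rfl | ⟨_, hb⟩
      · exact hac (key2 a c (by rw [← hsum]; abel))
      rcases hc with rfl | ⟨_, hc⟩
      · exact hab (key2 a b (by rw [← hsum]; abel))
      exact key a b c ha hb hc hsum
    · rw [Finset.card_insert_of_notMem]
      · omega
      · rw [Finset.mem_filter, map_zero]
        rintro ⟨_, h0⟩
        exact e2 h0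
  · push Not at hall
    obtain ⟨g, hg⟩ := hall
    set t := g + g with ht
    have himg : univ.image (fun g : G => g + g) = {0, t} := by
      symm
      apply Finset.eq_of_subset_of_card_le
      · intro y hy
        rw [Finset.mem_insert, Finset.mem_singleton] at hy
        rw [Finset.mem_image]
        rcases hy with rfl | rfl
        · exact ⟨0, Finset.mem_univ _, add_zero 0⟩
        · exact ⟨g, Finset.mem_univ _, rfl⟩
      · rw [Finset.card_pair (Ne.symm hg)]
        exact hd
    have hdbl : ∀ y : G, y + y = 0 ∨ y + y = t := by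
      intro y
      have : y + y ∈ univ.image (fun g : G => g + g) :=
        Finset.mem_image.mpr ⟨y, Finset.mem_univ _, rfl⟩
      rw [himg, Finset.mem_insert, Finset.mem_singleton] at this
      exact this
    have htt : t + t = 0 := by
      rcases hdbl t with h | h
      · exact h
      · exfalso
        apply hg
        have : t + t = t + 0 := by rw [h, add_zero]
        exact add_left_cancel this
    have hcd : doubles G = 2 := by
      unfold doubles
      rw [himg, Finset.card_pair (Ne.symm hg)]
    have h1 := doubles_mul t (by rw [himg]; simp)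
    rw [hcd] at h1
    refine ⟨insert t (univ.filter (fun y : G => y + y = t)), ?_, ?_⟩
    · rintro ⟨a, ha, b, hb, c, hc, hab, hac, hbc, hsum⟩
      have key : ∀ u v w : G, u + u = t → v + v = t → w + w = t → u + v + w ≠ 0 := by
        intro u v w hu hv hw h0
        have h2 : (u + u) + (v + v) + (w + w) = (u + v + w) + (u + v + w) := by abel
        rw [hu, hv, hw, h0, htt, zero_add, add_zero] at h2
        exact hg h2
      have key2 : ∀ u v : G, u + v = t → v + v = t → u = v := by
        intro u v huv hv
        rw [← hv] at huv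
        exact add_right_cancel huv
      have key3 : ∀ u v : G, t + u + v = 0 → u + v = t := by
        intro u v h0
        have h2 : u + v = (t + u + v) + t - (t + t) := by abel
        rw [h2, h0, htt, zero_add, sub_zero]
      rw [Finset.mem_insert, Finset.mem_filter] at ha hb hc
      rcases ha with rfl | ⟨_, ha⟩
      · rcases hb with rfl | ⟨_, hb⟩
        · exact hab rfl
        rcases hc with rfl | ⟨_, hc⟩
        · exact hac rfl
        exact hbc (key2 b c (key3 b c hsum) hc)
      rcases hb with rfl | ⟨_, hb⟩
      · rcases hc with rfl | ⟨_, hc⟩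
        · exact hbc rfl
        exact hac (key2 a c (key3 a c (by rw [← hsum]; abel)) hc)
      rcases hc with rfl | ⟨_, hc⟩
      · exact hab (key2 a b (key3 a b (by rw [← hsum]; abel)) hb)
      exact key a b c ha hb hc hsum
    · rw [Finset.card_insert_of_notMem]
      · omega
      · rw [Finset.mem_filter, htt]
        rintro ⟨_, h0⟩
        exact hg h0.symm

/-- distinct residues in `{0, ..., k+1}` modulo `3k+1` -/
theorem seg_distinct {p k : ℕ} (hpk : p = 3 * k + 1) {i j l : ℕ} (hi : i ≤ k + 1)
    (hj : j ≤ k + 1) (hl : l ≤ k + 1) (hij : i ≠ j) (hil : i ≠ l) (hjl : j ≠ l) :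
    ((i : ℕ) : ZMod p) + j + l ≠ 0 := by
  rw [← Nat.cast_add, ← Nat.cast_add]
  intro h
  rw [ZMod.natCast_eq_zero_iff] at h
  have := Nat.le_of_dvd (by omega) h
  omega

/-- lower bound for orders with all prime factors `1` mod `3` -/
theorem lower_one (n : ℕ) : ∀ (G : Type) [AddCommGroup G] [Fintype G] [DecidableEq G],
    Fintype.card G = n → 1 < n → (∀ q, q.Prime → q ∣ n → q % 3 = 1) →
    ∃ A : Finset G, ¬ Rep3 A 0 ∧ n + 5 ≤ 3 * A.card := by
  induction n using Nat.strong_induction_on with
  | _ n ih =>
    intro G _ _ _ hG hn hprimes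
    have hp := Nat.minFac_prime (show n ≠ 1 by omega)
    have hpn := Nat.minFac_dvd n
    set p := n.minFac with hpdef
    have hp3 := hprimes p hp hpn
    have : Fact p.Prime := ⟨hp⟩
    obtain ⟨k, hk⟩ : ∃ k, p = 3 * k + 1 := ⟨p / 3, by omega⟩
    obtain ⟨f, hf⟩ := exists_hom G p (by rw [hG]; exact hpn)
    have hk0 : 0 < k := by
      have := hp.two_le
      omega
    obtain ⟨m, hm⟩ := hpn
    have hm0 : 0 < m := by
      rcases Nat.eq_zero_or_pos m with h0 | h0
      · rw [h0] at hm; omega
      · exact h0
    have hcardker : Fintype.card f.ker = m := by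
      have h1 := card_fiber f hf 0
      have h2 : (univ.filter (fun x => f x = 0)).card = Fintype.card f.ker := by
        rw [Fintype.card_subtype]
        apply congrArg Finset.card
        ext y
        simp only [Finset.mem_filter, AddMonoidHom.mem_ker]
      rw [h2, hG, hm] at h1
      exact Nat.eq_of_mul_eq_mul_left hp.pos h1
    rcases Nat.lt_or_ge 1 m with hm1 | hm1
    · -- recursive step
      obtain ⟨A0, hA0, hA0c⟩ := ih m (by rw [hm]; have := hp.two_le; nlinarith) f.ker hcardker hm1
        (fun q hq hqm => hprimes q hq (hqm.trans ⟨p, by rw [hm, mul_comm]⟩))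
      have hcs : (seg p 1 (k - 1)).card = k := by
        rw [card_seg (by omega)]
        omega
      have hB := card_preimage f hf (seg p 1 (k - 1))
      rw [hcs, hG, hm, mul_assoc] at hB
      have hB' := Nat.eq_of_mul_eq_mul_left hp.pos hB
      refine ⟨univ.filter (fun x => f x ∈ seg p 1 (k - 1)) ∪ A0.map (Function.Embedding.subtype _),
        ?_, ?_⟩
      · rintro ⟨a, ha, b, hb, c, hc, hab, hac, hbc, hsum⟩
        have key : ∀ u ∈ univ.filter (fun x => f x ∈ seg p 1 (k - 1)) ∪
            A0.map (Function.Embedding.subtype _), ∃ i, i ≤ k ∧ f u = (i : ℕ) ∧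
            (i = 0 → ∃ u' ∈ A0, (u' : G) = u) := by
          intro u hu
          rw [Finset.mem_union, Finset.mem_filter, Finset.mem_map] at hu
          rcases hu with ⟨_, hu⟩ | ⟨u', hu', rfl⟩
          · obtain ⟨i, hi, hfi⟩ := mem_seg hu
            exact ⟨1 + i, by omega, hfi, by omega⟩
          · exact ⟨0, by omega, by rw [Nat.cast_zero]; exact u'.2, fun _ => ⟨u', hu', rfl⟩⟩
        obtain ⟨i, hi, hfi, hi0⟩ := key a ha
        obtain ⟨j, hj, hfj, hj0⟩ := key b hb
        obtain ⟨l, hl, hfl, hl0⟩ := key c hc
        have h0 := congrArg f hsum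
        rw [map_add, map_add, hfi, hfj, hfl, map_zero, ← Nat.cast_add, ← Nat.cast_add,
          ZMod.natCast_eq_zero_iff] at h0
        have h1 : i + j + l = 0 := Nat.eq_zero_of_dvd_of_lt h0 (by omega)
        obtain ⟨a', ha', rfl⟩ := hi0 (by omega)
        obtain ⟨b', hb', rfl⟩ := hj0 (by omega)
        obtain ⟨c', hc', rfl⟩ := hl0 (by omega)
        apply hA0
        refine ⟨a', ha', b', hb', c', hc', fun h => hab (by rw [h]), fun h => hac (by rw [h]),
          fun h => hbc (by rw [h]), ?_⟩
        apply Subtype.ext
        exact hsum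
      · rw [Finset.card_union_of_disjoint, Finset.card_map, hB', hm]
        · have e : p * m = (3 * k + 1) * m := congrArg (· * m) hk
          rw [e]
          nlinarith
        · rw [Finset.disjoint_left]
          intro u hu hu2
          rw [Finset.mem_filter] at hu
          rw [Finset.mem_map] at hu2
          obtain ⟨u', _, rfl⟩ := hu2
          obtain ⟨i, hi, hfi⟩ := mem_seg hu.2
          have h0 : f (u' : G) = 0 := u'.2
          rw [show f ((Function.Embedding.subtype _) u') = f (u' : G) from rfl, h0] at hfi
          have h1 : ((1 + i : ℕ) : ZMod p) = 0 := hfi.symm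
          rw [ZMod.natCast_eq_zero_iff] at h1
          have := Nat.le_of_dvd (by omega) h1
          omega
    · -- prime order
      have hm1' : m = 1 := by omega
      have hnp : n = p := by rw [hm, hm1', mul_one]
      have hinj : Function.Injective f := by
        have : Function.Bijective f :=
          (Fintype.bijective_iff_surjective_and_card f).mpr ⟨hf, by rw [hG, ZMod.card, hnp]⟩
        exact this.1
      refine ⟨univ.filter (fun x => f x ∈ seg p 0 (k + 1)), ?_, ?_⟩
      · rintro ⟨a, ha, b, hb, c, hc, hab, hac, hbc, hsum⟩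
        simp only [Finset.mem_filter, Finset.mem_univ, true_and] at ha hb hc
        obtain ⟨i, hi, hfi⟩ := mem_seg ha
        obtain ⟨j, hj, hfj⟩ := mem_seg hb
        obtain ⟨l, hl, hfl⟩ := mem_seg hc
        rw [zero_add] at hfi hfj hfl
        have h0 := congrArg f hsum
        rw [map_add, map_add, hfi, hfj, hfl, map_zero] at h0
        refine seg_distinct hk hi hj hl ?_ ?_ ?_ h0
        · rintro rfl
          exact hab (hinj (by rw [hfi, hfj]))
        · rintro rfl
          exact hac (hinj (by rw [hfi, hfl]))
        · rintro rfl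
          exact hbc (hinj (by rw [hfj, hfl]))
      · have hB := card_preimage f hf (seg p 0 (k + 1))
        rw [card_seg (by omega), hG, hnp] at hB
        have := Nat.eq_of_mul_eq_mul_left hp.pos hB
        rw [this, hnp]
        omega

end Pool.Agent.Helper591.Three
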